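import Pool.Agent.Work.MP_bbb683_h63.Pow

/-!
# MP_bbb683_co: from sets to sequences
-/

set_option autoImplicit false

namespace Pool.Agent.Work.MP_bbb683_h63

open Finset Filter Topology

theorem sidonF_image {a : ℕ → ℕ}
    (hs : ∀ i j k l, i ≤ j → k ≤ l → a i + a j = a k + a l → i = k ∧ j = l) (x : ℕ) :
    SidonF ((range x).image a) := by
  intro u hu v hv w hw t ht h
  rw [mem_image] at hu hv hw ht
  obtain ⟨i, -, rfl⟩ := hu
  obtain ⟨j, -, rfl⟩ := hv
  obtain ⟨k, -, rfl⟩ := hw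
  obtain ⟨l, -, rfl⟩ := ht
  rcases le_total i j with h1 | h1 <;> rcases le_total k l with h2 | h2
  · obtain ⟨h3, h4⟩ := hs i j k l h1 h2 h
    exact Or.inl ⟨by rw [h3], by rw [h4]⟩
  · obtain ⟨h3, h4⟩ := hs i j l k h1 h2 (by omega)
    exact Or.inr ⟨by rw [h3], by rw [h4]⟩
  · obtain ⟨h3, h4⟩ := hs j i k l h1 h2 (by omega)
    exact Or.inr ⟨by rw [h4], by rw [h3]⟩
  · obtain ⟨h3, h4⟩ := hs j i l k h1 h2 (by omega)
    exact Or.inl ⟨by rw [h4], by rw [h3]⟩

/-- the sum over the first `x` terms is at most `1` plus the sum over the small terms -/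
theorem S_le (a : ℕ → ℕ) (ha : StrictMono a) (x : ℕ) (hx : 1 ≤ x) :
    ∑ i ∈ range x, 1 / √(a i : ℝ) ≤ 1 + T ((range x).image a) (Nat.log 2 x + 1) := by
  classical
  have hinj : Set.InjOn a (range x) := fun i _ j _ h => ha.injective h
  have h1 : ∑ i ∈ range x, 1 / √(a i : ℝ) = ∑ b ∈ (range x).image a, 1 / √(b : ℝ) := by
    rw [Finset.sum_image hinj]
  rw [h1, ← Finset.sum_filter_add_sum_filter_not ((range x).image a) (fun b => b < 2 ^ (6 *
    (Nat.log 2 x + 1)))]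
  have h2 : ∑ b ∈ ((range x).image a).filter (fun b => ¬ b < 2 ^ (6 * (Nat.log 2 x + 1))),
      1 / √(b : ℝ) ≤ 1 := by
    have hxl : x < 2 ^ (Nat.log 2 x + 1) := Nat.lt_pow_succ_log_self (by norm_num) x
    have hxr : (0 : ℝ) < x := by exact_mod_cast hx
    have h3 : ∀ b ∈ ((range x).image a).filter (fun b => ¬ b < 2 ^ (6 * (Nat.log 2 x + 1))),
        1 / √(b : ℝ) ≤ 1 / x := by
      intro b hb
      rw [mem_filter] at hb
      have h4 : x ^ 2 ≤ b := by
        have h5 : x ^ 2 ≤ (2 ^ (Nat.log 2 x + 1)) ^ 2 := Nat.pow_le_pow_left hxl.le 2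
        have h6 : (2 ^ (Nat.log 2 x + 1)) ^ 2 ≤ 2 ^ (6 * (Nat.log 2 x + 1)) := by
          rw [← pow_mul]
          exact Nat.pow_le_pow_right (by norm_num) (by omega)
        omega
      have h5 : (x : ℝ) ≤ √(b : ℝ) := by
        apply Real.le_sqrt_of_sq_le
        exact_mod_cast h4
      exact one_div_le_one_div_of_le hxr h5
    refine (Finset.sum_le_sum h3).trans ?_
    rw [Finset.sum_const, nsmul_eq_mul]
    have h4 : (((range x).image a).filter
        (fun b => ¬ b < 2 ^ (6 * (Nat.log 2 x + 1)))).card ≤ x := by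
      refine (card_filter_le _ _).trans (card_image_le.trans ?_)
      rw [card_range]
    have h5 : ((((range x).image a).filter
        (fun b => ¬ b < 2 ^ (6 * (Nat.log 2 x + 1)))).card : ℝ) ≤ x := by exact_mod_cast h4
    rw [mul_one_div, div_le_one hxr]
    exact h5
  unfold T
  linarith

theorem log_x (x : ℕ) (hx : 2 ≤ x) (s : ℕ) :
    ((Nat.log 2 x + 1 + s : ℕ) : ℝ) ≤ (4 + 2 * s) * Real.log x := by
  have h1 : (2 : ℝ) ^ (Nat.log 2 x) ≤ x := by
    exact_mod_cast Nat.pow_log_le_self 2 (by omega)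
  have h2 : (Nat.log 2 x : ℝ) * Real.log 2 ≤ Real.log x := by
    have h3 := Real.log_le_log (by positivity) h1
    rwa [Real.log_pow] at h3
  have h3 := Real.log_two_gt_d9
  have h4 : Real.log 2 ≤ Real.log x := Real.log_le_log (by norm_num) (by exact_mod_cast hx)
  have h5 : (0 : ℝ) ≤ s := Nat.cast_nonneg s
  have h6 : (0 : ℝ) ≤ (Nat.log 2 x : ℝ) := Nat.cast_nonneg _
  push_cast
  nlinarith

theorem exists_shift (α : ℝ) (hα : 0 < α) : ∃ s : ℕ, 2 ≤ α * 2 ^ (6 * s) := by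
  obtain ⟨s, hs1⟩ := pow_unbounded_of_one_lt (2 / α) (show (1 : ℝ) < 2 ^ 6 by norm_num)
  refine ⟨s, ?_⟩
  rw [← pow_mul] at hs1
  rw [div_lt_iff₀ hα] at hs1
  linarith

/-- sequences close to a dilate: the unified bound -/
theorem final_U (α K : ℝ) (hα : 0 < α) : ∃ C : ℝ, 0 ≤ C ∧ ∀ (Q : Set ℕ) (κ : ℕ → ℕ),
    (∀ p : ℕ, p.Prime → 1 ≤ κ p ∧ κ p ≤ p) →
    (∀ B : Finset ℕ, (∀ b ∈ B, b ∈ Q) → ∀ p : ℕ, p.Prime → (B.image (· % p)).card ≤ κ p) →
    ∀ a : ℕ → ℕ, StrictMono a →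
      (∀ i j k l, i ≤ j → k ≤ l → a i + a j = a k + a l → i = k ∧ j = l) →
      (∀ i, ∃ q ∈ Q, |(a i : ℝ) - α * q| ≤ K) → ∀ x : ℕ, 2 ≤ x →
        ∑ i ∈ range x, 1 / √(a i : ℝ) ≤ C * (√(Real.log x) *
          Real.exp (-(1 / 2) * ∑ p ∈ (Icc 1 x).filter Nat.Prime, gain (κ p) p)) := by
  classical
  obtain ⟨s, hs2⟩ := exists_shift α hα
  obtain ⟨C, hC0, hC⟩ := bound_U (⌈4 * K⌉₊ + 1)
  obtain ⟨c, hc, hlow⟩ := Phi_low
  set k : ℝ := (⌈2 * K⌉₊ + 1) * √(2 / α) with hk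
  have hk0 : 0 < k := by positivity
  set D : ℝ := 1 + (⌈2 * K⌉₊ + 1) with hD
  have hD0 : 0 < D := by positivity
  refine ⟨2 * D / c + k * C * √(4 + 2 * s), by positivity, ?_⟩
  intro Q κ hκ hQκ a ha hs hn x hx
  have hK : 0 ≤ K := by
    obtain ⟨q, -, hq⟩ := hn 0
    exact (abs_nonneg _).trans hq
  obtain ⟨B, hBQ, hBd, hBT⟩ := near _ (sidonF_image hs x) Q α K hα hK (by
    intro b hb
    rw [mem_image] at hb
    obtain ⟨i, -, rfl⟩ := hb
    exact hn i)
  set m₀ := Nat.log 2 x + 1 with hm₀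
  have h1 := S_le a ha x (by omega)
  rw [← hm₀] at h1
  have h2 := hBT m₀ s hs2
  have h3 := hC κ hκ B hBd (hQκ B hBQ) (m₀ + s) (by omega)
  have hxlt : x < 2 ^ m₀ := Nat.lt_pow_succ_log_self (by norm_num) x
  have hlx : 0 ≤ Real.log x := Real.log_nonneg (by exact_mod_cast (by omega : 1 ≤ x))
  set E : ℝ := ∑ p ∈ (Icc 1 x).filter Nat.Prime, gain (κ p) p with hE
  have hsub : ∀ m, m₀ ≤ m → E ≤ ∑ p ∈ PP m, gain (κ p) p := by
    intro m hm
    rw [hE]
    apply Finset.sum_le_sum_of_subset_of_nonneg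
    · intro p hp
      rw [mem_filter, mem_Icc] at hp
      rw [mem_PP]
      exact ⟨hp.2, hp.1.2.trans (hxlt.le.trans (Nat.pow_le_pow_right (by norm_num) hm))⟩
    · intro p hp _
      obtain ⟨h4, h5⟩ := hκ p (mem_PP.1 hp).1
      exact gain_nonneg h4 h5
  -- upper bound for `Phi`
  have h4 : Phi κ (m₀ + s) ≤ √(4 + 2 * s) * (√(Real.log x) * Real.exp (-(1 / 2) * E)) := by
    unfold Phi
    have h5 : √((m₀ + s : ℕ) : ℝ) ≤ √(4 + 2 * s) * √(Real.log x) := by
      rw [← Real.sqrt_mul (by positivity)]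
      exact Real.sqrt_le_sqrt (log_x x hx s)
    have h6 : Real.exp (-(1 / 2) * ∑ p ∈ PP (m₀ + s), gain (κ p) p) ≤
        Real.exp (-(1 / 2) * E) := by
      apply Real.exp_le_exp.2
      have := hsub (m₀ + s) (by omega)
      linarith
    calc √((m₀ + s : ℕ) : ℝ) * Real.exp (-(1 / 2) * ∑ p ∈ PP (m₀ + s), gain (κ p) p)
        ≤ (√(4 + 2 * s) * √(Real.log x)) * Real.exp (-(1 / 2) * E) :=
          mul_le_mul h5 h6 (Real.exp_pos _).le (by positivity)
      _ = _ := by ring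
  -- lower bound
  have h5 : c / 2 ≤ √(Real.log x) * Real.exp (-(1 / 2) * E) := by
    -- all primes up to `x` only: use a function with the same values and no gain beyond `x`
    set κ' : ℕ → ℕ := fun p => if p ≤ x then κ p else p with hκ'
    have hκ'1 : ∀ p : ℕ, p.Prime → 1 ≤ κ' p ∧ κ' p ≤ p := by
      intro p hp
      simp only [hκ']
      split_ifs
      · exact hκ p hp
      · exact ⟨hp.one_lt.le, le_rfl⟩
    have h6 := hlow κ' hκ'1 m₀ (by omega)
    have h7 : ∑ p ∈ PP m₀, gain (κ' p) p = E := by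
      rw [hE]
      have h8 : ∑ p ∈ (Icc 1 x).filter Nat.Prime, gain (κ p) p =
          ∑ p ∈ (Icc 1 x).filter Nat.Prime, gain (κ' p) p := by
        apply Finset.sum_congr rfl
        intro p hp
        rw [mem_filter, mem_Icc] at hp
        simp only [hκ', if_pos hp.1.2]
      rw [h8]
      symm
      apply Finset.sum_subset
      · intro p hp
        rw [mem_filter, mem_Icc] at hp
        rw [mem_PP]
        exact ⟨hp.2, hp.1.2.trans hxlt.le⟩
      · intro p hp hp'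
        rw [mem_PP] at hp
        have h9 : ¬ p ≤ x := by
          intro h10
          apply hp'
          rw [mem_filter, mem_Icc]
          exact ⟨⟨hp.1.one_lt.le, h10⟩, hp.1⟩
        simp only [hκ', if_neg h9]
        unfold gain lam qf
        have hp0 : (p : ℝ) ≠ 0 := by exact_mod_cast hp.1.ne_zero
        rw [div_self hp0, min_eq_right (by norm_num : (1 : ℝ) ≤ 2), Real.log_one]
        norm_num
    unfold Phi at h6
    rw [h7] at h6
    have h8 : √((m₀ : ℕ) : ℝ) ≤ 2 * √(Real.log x) := by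
      have h9 := log_x x hx 0
      have h10 : ((m₀ : ℕ) : ℝ) ≤ 2 ^ 2 * Real.log x := by
        rw [hm₀]
        norm_num at h9 ⊢
        linarith
      have h11 := Real.sqrt_le_sqrt h10
      rwa [Real.sqrt_mul (by norm_num), Real.sqrt_sq (by norm_num)] at h11
    have h9 : √((m₀ : ℕ) : ℝ) * Real.exp (-(1 / 2) * E) ≤
        2 * √(Real.log x) * Real.exp (-(1 / 2) * E) :=
      mul_le_mul_of_nonneg_right h8 (Real.exp_pos _).le
    linarith
  have h6 : k * T B (m₀ + s) ≤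
      k * (C * (√(4 + 2 * s) * (√(Real.log x) * Real.exp (-(1 / 2) * E)))) := by
    apply mul_le_mul_of_nonneg_left _ hk0.le
    exact h3.trans (mul_le_mul_of_nonneg_left h4 hC0)
  have h7 : D ≤ 2 * D / c * (√(Real.log x) * Real.exp (-(1 / 2) * E)) := by
    have h8 : 2 * D / c * (c / 2) ≤ 2 * D / c * (√(Real.log x) * Real.exp (-(1 / 2) * E)) :=
      mul_le_mul_of_nonneg_left h5 (by positivity)
    have h9 : 2 * D / c * (c / 2) = D := by field_simp
    linarith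
  rw [← hk] at h2
  have h8 : k * (C * (√(4 + 2 * s) * (√(Real.log x) * Real.exp (-(1 / 2) * E)))) =
      k * C * √(4 + 2 * s) * (√(Real.log x) * Real.exp (-(1 / 2) * E)) := by ring
  rw [h8] at h6
  rw [add_mul]
  linarith

/-- sequences close to a dilate of the powerful numbers -/
theorem final_P (α K : ℝ) (hα : 0 < α) : ∃ C : ℝ, ∀ a : ℕ → ℕ, StrictMono a →
      (∀ i j k l, i ≤ j → k ≤ l → a i + a j = a k + a l → i = k ∧ j = l) →
      (∀ i, ∃ q : ℕ, (∀ p : ℕ, p.Prime → p ∣ q → p ^ 2 ∣ q) ∧ |(a i : ℝ) - α * q| ≤ K) →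
      ∀ x : ℕ, 2 ≤ x → ∑ i ∈ range x, 1 / √(a i : ℝ) ≤ C * Real.log x ^ (1 - Real.log 2) := by
  classical
  obtain ⟨s, hs2⟩ := exists_shift α hα
  obtain ⟨C, hC0, hC⟩ := bound_pow (⌈4 * K⌉₊ + 1)
  set θ : ℝ := 1 - Real.log 2 with hθ
  have hθ0 : 0 < θ := by
    have := Real.log_two_lt_d9
    rw [hθ]
    linarith
  set k : ℝ := (⌈2 * K⌉₊ + 1) * √(2 / α) with hk
  have hk0 : 0 < k := by positivity
  set D : ℝ := 1 + (⌈2 * K⌉₊ + 1) with hD
  have hD0 : 0 < D := by positivity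
  refine ⟨(D * 2 ^ θ) + k * C * (4 + 2 * s) ^ θ, ?_⟩
  intro a ha hs hn x hx
  have hK : 0 ≤ K := by
    obtain ⟨q, -, hq⟩ := hn 0
    exact (abs_nonneg _).trans hq
  obtain ⟨B, hBQ, hBd, hBT⟩ := near _ (sidonF_image hs x)
    {q | ∀ p : ℕ, p.Prime → p ∣ q → p ^ 2 ∣ q} α K hα hK (by
    intro b hb
    rw [mem_image] at hb
    obtain ⟨i, -, rfl⟩ := hb
    exact hn i)
  have h1 := S_le a ha x (by omega)
  have h2 := hBT (Nat.log 2 x + 1) s hs2
  have h3 := hC B hBd hBQ (Nat.log 2 x + 1 + s) (by omega)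
  have h4 := log_x x hx s
  have hlog2 : Real.log 2 ≤ Real.log x := Real.log_le_log (by norm_num) (by exact_mod_cast hx)
  have hlb := Real.log_two_gt_d9
  have hlx : 0 < Real.log x := by linarith
  have h5 : ((Nat.log 2 x + 1 + s : ℕ) : ℝ) ^ θ ≤ (4 + 2 * s) ^ θ * Real.log x ^ θ := by
    rw [← Real.mul_rpow (by positivity) hlx.le]
    exact Real.rpow_le_rpow (by positivity) h4 hθ0.le
  have h6 : (1 : ℝ) ≤ 2 ^ θ * Real.log x ^ θ := by
    rw [← Real.mul_rpow (by norm_num) hlx.le]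
    exact Real.one_le_rpow (by linarith) hθ0.le
  have h7 : k * T B (Nat.log 2 x + 1 + s) ≤ k * (C * ((4 + 2 * s) ^ θ * Real.log x ^ θ)) := by
    apply mul_le_mul_of_nonneg_left _ hk0.le
    exact h3.trans (mul_le_mul_of_nonneg_left h5 hC0)
  have h8 : D * 1 ≤ D * (2 ^ θ * Real.log x ^ θ) := mul_le_mul_of_nonneg_left h6 hD0.le
  rw [← hk] at h2
  rw [add_mul]
  have h9 : k * (C * ((4 + 2 * s) ^ θ * Real.log x ^ θ)) =
      k * C * (4 + 2 * s) ^ θ * Real.log x ^ θ := by ring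
  rw [h9] at h7
  have h10 : D * (2 ^ θ * Real.log x ^ θ) = D * 2 ^ θ * Real.log x ^ θ := by ring
  rw [h10] at h8
  linarith

end Pool.Agent.Work.MP_bbb683_h63
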