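import Pool.Agent.Work.MP_bbb683_h63.Main

/-!
# MP_bbb683_co: Sidon sets close to a dilate of a set
-/

set_option autoImplicit false

namespace Pool.Agent.Work.MP_bbb683_h63

open Finset Filter Topology

/-- finite Sidon sets -/
def SidonF (A : Finset ℕ) : Prop :=
  ∀ a ∈ A, ∀ b ∈ A, ∀ c ∈ A, ∀ d ∈ A, a + b = c + d → (a = c ∧ b = d) ∨ (a = d ∧ b = c)

/-- the number of integers in a real interval -/
theorem card_close (S : Finset ℤ) (x R : ℝ) (h : ∀ s ∈ S, |(s : ℝ) - x| ≤ R) :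
    S.card ≤ ⌈2 * R⌉₊ + 1 := by
  rcases S.eq_empty_or_nonempty with h0 | h0
  · rw [h0]
    simp
  · obtain ⟨m, hm, hmin⟩ := S.exists_min_image id h0
    have h1 : S ⊆ Icc m (m + ⌈2 * R⌉₊) := by
      intro s hs
      rw [mem_Icc]
      refine ⟨hmin s hs, ?_⟩
      have h2 := abs_le.1 (h s hs)
      have h3 := abs_le.1 (h m hm)
      have h4 : (s : ℝ) - m ≤ 2 * R := by linarith
      have h5 : (s : ℝ) - m ≤ (⌈2 * R⌉₊ : ℝ) := h4.trans (Nat.le_ceil _)
      have h6 : (s : ℝ) ≤ ((m + (⌈2 * R⌉₊ : ℤ) : ℤ) : ℝ) := by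
        push_cast
        linarith
      exact_mod_cast h6
    have h2 := card_le_card h1
    rw [Int.card_Icc] at h2
    have h3 : (m + (⌈2 * R⌉₊ : ℤ) + 1 - m).toNat = ⌈2 * R⌉₊ + 1 := by omega
    rw [h3] at h2
    exact h2

theorem near (A : Finset ℕ) (hA : SidonF A) (Q : Set ℕ) (α K : ℝ) (hα : 0 < α) (hK : 0 ≤ K)
    (hnear : ∀ a ∈ A, ∃ q ∈ Q, |(a : ℝ) - α * q| ≤ K) :
    ∃ B : Finset ℕ, (∀ q ∈ B, q ∈ Q) ∧ DiffLE (⌈4 * K⌉₊ + 1) B ∧
      ∀ m s : ℕ, 2 ≤ α * 2 ^ (6 * s) →
        T A m ≤ (⌈2 * K⌉₊ + 1) + (⌈2 * K⌉₊ + 1) * √(2 / α) * T B (m + s) := by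
  classical
  choose! q hqQ hq using hnear
  set A' := A.filter (fun a : ℕ => 2 * K < (a : ℝ)) with hA'
  have hA'm : ∀ a ∈ A', a ∈ A ∧ 2 * K < (a : ℝ) := fun a ha => by
    rw [hA', mem_filter] at ha
    exact ha
  set B := A'.image q with hB
  refine ⟨B, ?_, ?_, ?_⟩
  · intro x hx
    rw [hB, mem_image] at hx
    obtain ⟨a, ha, rfl⟩ := hx
    exact hqQ a (hA'm a ha).1
  · -- multiplicities
    intro d hd
    have hpre : ∀ x ∈ B, ∃ a ∈ A', q a = x := fun x hx => by
      rw [hB, mem_image] at hx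
      exact hx
    choose! r hr hqr using hpre
    set R := (B ×ˢ B).filter (fun x => x.1 + d = x.2) with hR
    have hRm : ∀ x ∈ R, x.1 ∈ B ∧ x.2 ∈ B ∧ x.1 + d = x.2 := fun x hx => by
      rw [hR, mem_filter, mem_product] at hx
      exact ⟨hx.1.1, hx.1.2, hx.2⟩
    have hinj : Set.InjOn (fun x : ℕ × ℕ => ((r x.2 : ℤ) - (r x.1 : ℤ))) R := by
      intro x hx y hy hxy
      obtain ⟨hx1, hx2, hx3⟩ := hRm x hx
      obtain ⟨hy1, hy2, hy3⟩ := hRm y hy
      simp only at hxy
      have h1 : r x.2 + r y.1 = r y.2 + r x.1 := by omega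
      have m1 := (hA'm _ (hr x.2 hx2)).1
      have m2 := (hA'm _ (hr y.1 hy1)).1
      have m3 := (hA'm _ (hr y.2 hy2)).1
      have m4 := (hA'm _ (hr x.1 hx1)).1
      rcases hA _ m1 _ m2 _ m3 _ m4 h1 with ⟨h2, h3⟩ | ⟨h2, h3⟩
      · have e2 : x.2 = y.2 := by rw [← hqr x.2 hx2, ← hqr y.2 hy2, h2]
        have e1 : x.1 = y.1 := by rw [← hqr x.1 hx1, ← hqr y.1 hy1, h3]
        exact Prod.ext e1 e2
      · have e2 : x.2 = x.1 := by rw [← hqr x.2 hx2, ← hqr x.1 hx1, h2]
        omega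
    have h1 : R.card = (R.image (fun x : ℕ × ℕ => ((r x.2 : ℤ) - (r x.1 : ℤ)))).card :=
      (card_image_of_injOn hinj).symm
    rw [h1]
    have h2 := card_close (R.image (fun x : ℕ × ℕ => ((r x.2 : ℤ) - (r x.1 : ℤ)))) (α * d) (2 * K) (by
        intro s hs
        rw [mem_image] at hs
        obtain ⟨x, hx, rfl⟩ := hs
        obtain ⟨hx1, hx2, hx3⟩ := hRm x hx
        have h3 := abs_le.1 (hq _ (hA'm _ (hr x.1 hx1)).1)
        have h4 := abs_le.1 (hq _ (hA'm _ (hr x.2 hx2)).1)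
        rw [hqr x.1 hx1] at h3
        have hx4 : (x.2 : ℝ) = (x.1 : ℝ) + d := by exact_mod_cast hx3.symm
        rw [hqr x.2 hx2, hx4, mul_add] at h4
        push_cast
        rw [abs_le]
        constructor <;> linarith)
    have h3 : 2 * (2 * K) = 4 * K := by ring
    rw [h3] at h2
    exact h2
  · intro m s hs
    set k : ℕ := ⌈2 * K⌉₊ + 1 with hk
    have hkr : (k : ℝ) = (⌈2 * K⌉₊ : ℝ) + 1 := by rw [hk]; push_cast; ring
    set Am := A.filter (fun b => b < 2 ^ (6 * m)) with hAm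
    unfold T
    rw [← hAm, ← Finset.sum_filter_add_sum_filter_not Am (fun a : ℕ => 2 * K < (a : ℝ))]
    have hsmall : ∑ a ∈ Am.filter (fun a : ℕ => ¬ 2 * K < (a : ℝ)), 1 / √(a : ℝ) ≤ k := by
      have h1 : ∀ a ∈ Am.filter (fun a : ℕ => ¬ 2 * K < (a : ℝ)), 1 / √(a : ℝ) ≤ 1 := by
        intro a _
        rcases Nat.eq_zero_or_pos a with h | h
        · rw [h]
          simp
        · have h2 : (1 : ℝ) ≤ √(a : ℝ) := by
            rw [Real.one_le_sqrt]
            exact_mod_cast h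
          rw [div_le_one (by linarith)]
          exact h2
      refine (Finset.sum_le_sum h1).trans ?_
      rw [Finset.sum_const, nsmul_eq_mul, mul_one]
      have h2 : Am.filter (fun a : ℕ => ¬ 2 * K < (a : ℝ)) ⊆ range k := by
        intro a ha
        rw [mem_filter] at ha
        rw [mem_range]
        have h3 : (a : ℝ) ≤ 2 * K := not_lt.1 ha.2
        have h4 : (a : ℝ) ≤ (⌈2 * K⌉₊ : ℝ) := h3.trans (Nat.le_ceil _)
        have h5 : a ≤ ⌈2 * K⌉₊ := by exact_mod_cast h4
        omega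
      have h3 := card_le_card h2
      rw [card_range] at h3
      exact_mod_cast h3
    have hbig : ∑ a ∈ Am.filter (fun a : ℕ => 2 * K < (a : ℝ)), 1 / √(a : ℝ) ≤
        k * √(2 / α) * ∑ b ∈ B.filter (fun b => b < 2 ^ (6 * (m + s))), 1 / √(b : ℝ) := by
      have hmem : ∀ a ∈ Am.filter (fun a : ℕ => 2 * K < (a : ℝ)), a ∈ A ∧ a < 2 ^ (6 * m) ∧
          2 * K < (a : ℝ) := by
        intro a ha
        rw [mem_filter, hAm, mem_filter] at ha
        exact ⟨ha.1.1, ha.1.2, ha.2⟩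
      have hmaps : ∀ a ∈ Am.filter (fun a : ℕ => 2 * K < (a : ℝ)),
          q a ∈ B.filter (fun b => b < 2 ^ (6 * (m + s))) := by
        intro a ha
        obtain ⟨h1, h2, h3⟩ := hmem a ha
        rw [mem_filter]
        constructor
        · rw [hB]
          apply mem_image_of_mem
          rw [hA', mem_filter]
          exact ⟨h1, h3⟩
        · have h4 := abs_le.1 (hq a h1)
          have h5 : α * q a ≤ 2 * a := by
            have : (0 : ℝ) ≤ a := Nat.cast_nonneg a
            linarith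
          have h6 : (a : ℝ) < 2 ^ (6 * m) := by exact_mod_cast h2
          have h7 : α * q a < α * 2 ^ (6 * s) * 2 ^ (6 * m) := by
            have h8 : (0 : ℝ) < 2 ^ (6 * m) := by positivity
            nlinarith
          have h9 : (q a : ℝ) < 2 ^ (6 * s) * 2 ^ (6 * m) := by
            have h10 : α * (q a : ℝ) < α * (2 ^ (6 * s) * 2 ^ (6 * m)) := by linarith
            exact lt_of_mul_lt_mul_left h10 hα.le
          have h11 : (q a : ℝ) < ((2 ^ (6 * (m + s)) : ℕ) : ℝ) := by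
            push_cast
            rw [show 6 * (m + s) = 6 * s + 6 * m by ring, pow_add]
            exact h9
          exact_mod_cast h11
      rw [← Finset.sum_fiberwise_of_maps_to hmaps, Finset.mul_sum]
      apply Finset.sum_le_sum
      intro x hx
      set F := (Am.filter (fun a : ℕ => 2 * K < (a : ℝ))).filter (fun a => q a = x) with hF
      have hFm : ∀ a ∈ F, a ∈ A ∧ 2 * K < (a : ℝ) ∧ q a = x := by
        intro a ha
        rw [hF, mem_filter] at ha
        obtain ⟨h1, h2, h3⟩ := hmem a ha.1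
        exact ⟨h1, h3, ha.2⟩
      have h1 : ∀ a ∈ F, 1 / √(a : ℝ) ≤ √(2 / α) * (1 / √(x : ℝ)) := by
        intro a ha
        obtain ⟨h1, h2, h3⟩ := hFm a ha
        have h4 := abs_le.1 (hq a h1)
        rw [h3] at h4
        have h5 : 0 < α * x := by linarith
        have hx0 : (0 : ℝ) < x := by
          by_contra hcon
          have : (x : ℝ) = 0 := le_antisymm (not_lt.1 hcon) (Nat.cast_nonneg x)
          rw [this, mul_zero] at h5
          exact lt_irrefl _ h5
        have h6 : α * x / 2 ≤ a := by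
          have : (0 : ℝ) ≤ a := Nat.cast_nonneg a
          linarith
        rw [Real.sqrt_div (by norm_num), div_mul_div_comm, mul_one, ← Real.sqrt_mul hα.le]
        have h7 : √(α * x / 2) ≤ √(a : ℝ) := Real.sqrt_le_sqrt h6
        have h8 : 0 < √(α * x / 2) := Real.sqrt_pos.2 (by positivity)
        have h9 : √2 / √(α * x) = 1 / √(α * x / 2) := by
          rw [Real.sqrt_div h5.le, one_div_div]
        rw [h9]
        exact one_div_le_one_div_of_le h8 h7
      have h2 : F.card ≤ k := by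
        have h3 := card_close (F.map ⟨(fun n : ℕ => (n : ℤ)), Nat.cast_injective⟩) (α * x) K (by
          intro t ht
          rw [Finset.mem_map] at ht
          obtain ⟨a, ha, rfl⟩ := ht
          obtain ⟨h4, h5, h6⟩ := hFm a ha
          have h7 := hq a h4
          rw [h6] at h7
          simpa using h7)
        rw [card_map] at h3
        exact h3
      calc ∑ a ∈ F, 1 / √(a : ℝ) ≤ ∑ _a ∈ F, √(2 / α) * (1 / √(x : ℝ)) := Finset.sum_le_sum h1
        _ = F.card * (√(2 / α) * (1 / √(x : ℝ))) := by rw [Finset.sum_const, nsmul_eq_mul]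
        _ ≤ k * (√(2 / α) * (1 / √(x : ℝ))) := by
            apply mul_le_mul_of_nonneg_right _ (by positivity)
            exact_mod_cast h2
        _ = k * √(2 / α) * (1 / √(x : ℝ)) := by ring
    rw [← hkr]
    linarith

end Pool.Agent.Work.MP_bbb683_h63
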