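import Mathlib

/-!
# MP_bbb683_co: the number of close pairs in a set with few repeated differences
-/

set_option autoImplicit false

namespace Pool.Agent.Work.MP_bbb683_h63

open Finset

/-- every `d > 0` is at most `g` times a difference of elements of `B` -/
def DiffLE (g : ℕ) (B : Finset ℕ) : Prop :=
  ∀ d : ℕ, 0 < d → ((B ×ˢ B).filter fun q => q.1 + d = q.2).card ≤ g

/-- the weight of `d`: the product of the `y p` with `p ∣ d`, `p ∈ P` -/
noncomputable def W (P : Finset ℕ) (y : ℕ → ℝ) (d : ℕ) : ℝ :=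
  ∏ p ∈ P, if p ∣ d then y p else 1

theorem W_nonneg {P : Finset ℕ} {y : ℕ → ℝ} (hy : ∀ p ∈ P, 1 ≤ y p) (d : ℕ) : 0 ≤ W P y d := by
  unfold W
  apply Finset.prod_nonneg
  intro p hp
  have := hy p hp
  split_ifs <;> linarith

theorem sum_W_le (y : ℕ → ℝ) (P : Finset ℕ) : (∀ p ∈ P, p.Prime) → (∀ p ∈ P, 1 ≤ y p) →
    ∀ n : ℕ, ∑ d ∈ Icc 1 n, W P y d ≤ n * ∏ p ∈ P, (1 + (y p - 1) / p) := by
  induction P using Finset.induction_on with
  | empty =>
    intro _ _ n
    simp [W]
  | insert q P hq ih =>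
    intro hP hy n
    have hP' : ∀ p ∈ P, p.Prime := fun p hp => hP p (mem_insert_of_mem hp)
    have hy' : ∀ p ∈ P, 1 ≤ y p := fun p hp => hy p (mem_insert_of_mem hp)
    have hqp : q.Prime := hP q (mem_insert_self _ _)
    have hyq : 1 ≤ y q := hy q (mem_insert_self _ _)
    have ih' := ih hP' hy'
    have hq0 : (0 : ℝ) < q := by exact_mod_cast hqp.pos
    have hPr : (0 : ℝ) ≤ ∏ p ∈ P, (1 + (y p - 1) / p) := by
      apply Finset.prod_nonneg
      intro p hp
      have h1 := hy' p hp
      have h2 : (0 : ℝ) < p := by exact_mod_cast (hP' p hp).pos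
      have h3 : 0 ≤ (y p - 1) / p := div_nonneg (by linarith) h2.le
      linarith
    have hsplit : ∀ d, W (insert q P) y d = W P y d + if q ∣ d then (y q - 1) * W P y d else 0 := by
      intro d
      unfold W
      rw [prod_insert hq]
      split_ifs <;> ring
    have hmul : ∀ e, W P y (q * e) = W P y e := by
      intro e
      unfold W
      apply Finset.prod_congr rfl
      intro p hp
      have hne : p ≠ q := fun h => hq (h ▸ hp)
      have h1 : p ∣ q * e ↔ p ∣ e := by
        constructor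
        · intro h
          rcases (hP' p hp).dvd_mul.1 h with h2 | h2
          · exact absurd ((Nat.prime_dvd_prime_iff_eq (hP' p hp) hqp).1 h2) hne
          · exact h2
        · intro h
          exact Dvd.dvd.mul_left h q
      simp only [h1]
    have hsum2 : ∑ d ∈ Icc 1 n, (if q ∣ d then (y q - 1) * W P y d else 0) =
        (y q - 1) * ∑ e ∈ Icc 1 (n / q), W P y e := by
      rw [← Finset.sum_filter, Finset.mul_sum]
      symm
      apply Finset.sum_bij (fun e _ => q * e)
      · intro e he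
        rw [mem_Icc] at he
        rw [mem_filter, mem_Icc]
        have h1 : q * e ≤ n := by
          have := Nat.mul_le_mul_left q he.2
          exact this.trans (Nat.mul_div_le n q)
        have h2 := Nat.mul_pos hqp.pos (by omega : 0 < e)
        exact ⟨⟨h2, h1⟩, Dvd.intro e rfl⟩
      · intro e _ e' _ h
        exact Nat.eq_of_mul_eq_mul_left hqp.pos h
      · intro d hd
        rw [mem_filter, mem_Icc] at hd
        obtain ⟨e, rfl⟩ := hd.2
        refine ⟨e, ?_, rfl⟩
        rw [mem_Icc]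
        constructor
        · by_contra h
          have : e = 0 := by omega
          subst this
          omega
        · rw [Nat.le_div_iff_mul_le hqp.pos, mul_comm]
          exact hd.1.2
      · intro e _
        rw [hmul e]
    simp only [hsplit]
    rw [Finset.sum_add_distrib, hsum2, prod_insert hq]
    have h1 := ih' n
    have h2 := ih' (n / q)
    have h3 : ((n / q : ℕ) : ℝ) ≤ (n : ℝ) / q := Nat.cast_div_le
    have h4 : (y q - 1) * ∑ e ∈ Icc 1 (n / q), W P y e ≤
        (y q - 1) * ((n : ℝ) / q * ∏ p ∈ P, (1 + (y p - 1) / p)) := by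
      apply mul_le_mul_of_nonneg_left _ (by linarith)
      exact h2.trans (mul_le_mul_of_nonneg_right h3 hPr)
    calc ∑ d ∈ Icc 1 n, W P y d + (y q - 1) * ∑ e ∈ Icc 1 (n / q), W P y e
        ≤ n * ∏ p ∈ P, (1 + (y p - 1) / p) +
          (y q - 1) * ((n : ℝ) / q * ∏ p ∈ P, (1 + (y p - 1) / p)) := add_le_add h1 h4
      _ = n * ((1 + (y q - 1) / q) * ∏ p ∈ P, (1 + (y p - 1) / p)) := by ring

/-- collisions modulo `p` (Cauchy-Schwarz) -/
theorem collision (B : Finset ℕ) (p : ℕ) :
    (B.card : ℝ) ^ 2 ≤ ((B.image (· % p)).card : ℝ) *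
      ((B ×ˢ B).filter fun q => q.1 % p = q.2 % p).card := by
  classical
  set I := B.image (· % p) with hI
  set E := (B ×ˢ B).filter fun q => q.1 % p = q.2 % p with hE
  have hmem : ∀ b ∈ B, b % p ∈ I := fun b hb => by rw [hI]; exact mem_image_of_mem _ hb
  have e1 : E.card = ∑ c ∈ I, ((B.filter fun b => b % p = c).card) ^ 2 := by
    have h1 : ∀ q ∈ E, q.1 % p ∈ I := by
      intro q hq
      rw [hE, mem_filter, mem_product] at hq
      exact hmem q.1 hq.1.1
    rw [card_eq_sum_card_fiberwise (f := fun q : ℕ × ℕ => q.1 % p) h1]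
    refine sum_congr rfl fun c _ => ?_
    have h2 : (E.filter fun q => q.1 % p = c) =
        (B.filter fun b => b % p = c) ×ˢ (B.filter fun b => b % p = c) := by
      ext q
      rw [hE, mem_filter, mem_filter, mem_product, mem_product, mem_filter, mem_filter]
      constructor
      · rintro ⟨⟨⟨h3, h4⟩, h5⟩, h6⟩
        exact ⟨⟨h3, h6⟩, h4, by rw [← h5]; exact h6⟩
      · rintro ⟨⟨h3, h4⟩, h5, h6⟩
        exact ⟨⟨⟨h3, h5⟩, by rw [h4, h6]⟩, h4⟩
    rw [h2, card_product]
    ring
  have e2 : B.card = ∑ c ∈ I, (B.filter fun b => b % p = c).card :=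
    card_eq_sum_card_fiberwise (f := fun b => b % p) (by
      intro b hb
      exact hmem b hb)
  have e3 := sq_sum_le_card_mul_sum_sq (s := I)
    (f := fun c => ((B.filter fun b => b % p = c).card : ℝ))
  rw [e1, e2]
  push_cast
  exact e3

/-- pairs in one block -/
theorem one_block (B P : Finset ℕ) (y κ : ℕ → ℝ) (hy : ∀ p ∈ P, 1 ≤ y p)
    (hy1 : ∀ p ∈ P, Real.log (y p) ≤ 1) (hκ : ∀ p ∈ P, 0 < κ p ∧ ((B.image (· % p)).card : ℝ) ≤ κ p)
    (hB : P.card + 1 ≤ B.card) :
    (B.card : ℝ) * (B.card - 1) / 2 * Real.exp (∑ p ∈ P, Real.log (y p) / κ p - 1) ≤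
      ∑ q ∈ (B ×ˢ B).filter (fun q => q.1 < q.2), W P y (q.2 - q.1) := by
  classical
  set L := ∑ p ∈ P, Real.log (y p) / κ p with hL
  have hlog0 : ∀ p ∈ P, 0 ≤ Real.log (y p) := fun p hp => Real.log_nonneg (hy p hp)
  have hL0 : 0 ≤ L := by
    rw [hL]
    exact Finset.sum_nonneg fun p hp => div_nonneg (hlog0 p hp) (hκ p hp).1.le
  set F : ℕ × ℕ → ℝ := fun q => ∑ p ∈ P, if q.1 % p = q.2 % p then Real.log (y p) else 0 with hF
  set D := (B ×ˢ B).filter fun q => q.1 = q.2 with hD
  set A := (B ×ˢ B).filter fun q => q.1 < q.2 with hA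
  set A' := (B ×ˢ B).filter fun q => q.2 < q.1 with hA'
  have hU : B ×ˢ B = D ∪ (A ∪ A') := by
    ext q
    rw [mem_union, mem_union, hD, hA, hA', mem_filter, mem_filter, mem_filter]
    constructor
    · intro h2
      rcases lt_trichotomy q.1 q.2 with h | h | h
      · exact Or.inr (Or.inl ⟨h2, h⟩)
      · exact Or.inl ⟨h2, h⟩
      · exact Or.inr (Or.inr ⟨h2, h⟩)
    · rintro (⟨h2, -⟩ | ⟨h2, -⟩ | ⟨h2, -⟩) <;> exact h2
  have hd1 : Disjoint D (A ∪ A') := by
    rw [disjoint_left]
    intro q hq hq2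
    rw [hD, mem_filter] at hq
    rw [mem_union, hA, hA', mem_filter, mem_filter] at hq2
    rcases hq2 with h | h <;> omega
  have hd2 : Disjoint A A' := by
    rw [disjoint_left]
    intro q hq hq2
    rw [hA, mem_filter] at hq
    rw [hA', mem_filter] at hq2
    omega
  have hDc : D.card = B.card := by
    symm
    apply card_bij (fun u _ => (u, u))
    · intro u hu
      rw [hD, mem_filter, mem_product]
      exact ⟨⟨hu, hu⟩, rfl⟩
    · intro u _ v _ huv
      exact (Prod.mk.injEq _ _ _ _ ▸ huv).1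
    · intro q hq
      rw [hD, mem_filter, mem_product] at hq
      exact ⟨q.1, hq.1.1, Prod.ext rfl hq.2⟩
  have hswap : ∑ q ∈ A', F q = ∑ q ∈ A, F q := by
    apply Finset.sum_bij (fun q _ => (q.2, q.1))
    · intro q hq
      rw [hA', mem_filter, mem_product] at hq
      rw [hA, mem_filter, mem_product]
      exact ⟨⟨hq.1.2, hq.1.1⟩, hq.2⟩
    · intro q _ r _ hqr
      have h6 := Prod.mk.injEq _ _ _ _ ▸ hqr
      exact Prod.ext h6.2 h6.1
    · intro q hq
      rw [hA, mem_filter, mem_product] at hq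
      refine ⟨(q.2, q.1), ?_, rfl⟩
      rw [hA', mem_filter, mem_product]
      exact ⟨⟨hq.1.2, hq.1.1⟩, hq.2⟩
    · intro q _
      simp only [hF]
      apply Finset.sum_congr rfl
      intro p _
      by_cases h : q.1 % p = q.2 % p
      · rw [if_pos h, if_pos h.symm]
      · rw [if_neg h, if_neg fun h' => h h'.symm]
  have hcswap : A'.card = A.card := by
    apply card_bij (fun q _ => (q.2, q.1))
    · intro q hq
      rw [hA', mem_filter, mem_product] at hq
      rw [hA, mem_filter, mem_product]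
      exact ⟨⟨hq.1.2, hq.1.1⟩, hq.2⟩
    · intro q _ r _ hqr
      have h6 := Prod.mk.injEq _ _ _ _ ▸ hqr
      exact Prod.ext h6.2 h6.1
    · intro q hq
      rw [hA, mem_filter, mem_product] at hq
      refine ⟨(q.2, q.1), ?_, rfl⟩
      rw [hA', mem_filter, mem_product]
      exact ⟨⟨hq.1.2, hq.1.1⟩, hq.2⟩
  -- the number of pairs
  have hcard : (B.card : ℝ) * B.card = B.card + 2 * A.card := by
    have h1 : (B ×ˢ B).card = D.card + (A.card + A'.card) := by
      rw [hU, card_union_of_disjoint hd1, card_union_of_disjoint hd2]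
    rw [card_product, hDc, hcswap] at h1
    have h2 : ((B.card * B.card : ℕ) : ℝ) = ((B.card + (A.card + A.card) : ℕ) : ℝ) := by
      exact_mod_cast h1
    push_cast at h2
    linarith
  -- the total sum of `F`
  have htot : (B.card : ℝ) ^ 2 * L ≤ ∑ q ∈ B ×ˢ B, F q := by
    have h1 : ∑ q ∈ B ×ˢ B, F q = ∑ p ∈ P, Real.log (y p) *
        ((B ×ˢ B).filter fun q => q.1 % p = q.2 % p).card := by
      simp only [hF]
      rw [Finset.sum_comm]
      apply Finset.sum_congr rfl
      intro p _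
      rw [← Finset.sum_filter, Finset.sum_const, nsmul_eq_mul, mul_comm]
    rw [h1, hL, Finset.mul_sum]
    apply Finset.sum_le_sum
    intro p hp
    obtain ⟨h2, h3⟩ := hκ p hp
    have h4 := collision B p
    have h5 : (B.card : ℝ) ^ 2 ≤ κ p * ((B ×ˢ B).filter fun q => q.1 % p = q.2 % p).card :=
      h4.trans (mul_le_mul_of_nonneg_right h3 (Nat.cast_nonneg _))
    have h6 : (B.card : ℝ) ^ 2 / κ p ≤ ((B ×ˢ B).filter fun q => q.1 % p = q.2 % p).card := by
      rw [div_le_iff₀ h2, mul_comm]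
      exact h5
    calc (B.card : ℝ) ^ 2 * (Real.log (y p) / κ p) = Real.log (y p) * ((B.card : ℝ) ^ 2 / κ p) := by
          ring
      _ ≤ _ := mul_le_mul_of_nonneg_left h6 (hlog0 p hp)
  have hdiag : ∑ q ∈ D, F q ≤ B.card * (B.card - 1) := by
    have h1 : ∀ q ∈ D, F q ≤ P.card := by
      intro q _
      simp only [hF]
      calc ∑ p ∈ P, (if q.1 % p = q.2 % p then Real.log (y p) else 0) ≤ ∑ _p ∈ P, (1 : ℝ) := by
            apply Finset.sum_le_sum
            intro p hp
            have := hy1 p hp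
            split_ifs <;> linarith
        _ = P.card := by simp
    calc ∑ q ∈ D, F q ≤ ∑ _q ∈ D, (P.card : ℝ) := Finset.sum_le_sum h1
      _ = B.card * P.card := by rw [Finset.sum_const, nsmul_eq_mul, hDc]
      _ ≤ B.card * (B.card - 1) := by
          apply mul_le_mul_of_nonneg_left _ (Nat.cast_nonneg _)
          have : ((P.card + 1 : ℕ) : ℝ) ≤ B.card := by exact_mod_cast hB
          push_cast at this
          linarith
  have hAF : (A.card : ℝ) * (L - 1) ≤ ∑ q ∈ A, F q := by
    rw [hU, Finset.sum_union hd1, Finset.sum_union hd2, hswap] at htot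
    have hb : (0 : ℝ) ≤ B.card := Nat.cast_nonneg _
    nlinarith
  -- convexity
  have hW : ∀ q ∈ A, W P y (q.2 - q.1) = Real.exp (F q) := by
    intro q hq
    rw [hA, mem_filter] at hq
    unfold W
    simp only [hF]
    rw [Real.exp_sum]
    apply Finset.prod_congr rfl
    intro p hp
    have h1 : p ∣ q.2 - q.1 ↔ q.1 % p = q.2 % p := by
      rw [← Nat.modEq_iff_dvd' hq.2.le]
      rfl
    by_cases h : q.1 % p = q.2 % p
    · rw [if_pos (h1.2 h), if_pos h, Real.exp_log (by linarith [hy p hp])]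
    · rw [if_neg (fun h' => h (h1.1 h')), if_neg h, Real.exp_zero]
  rw [Finset.sum_congr rfl hW]
  have hconv : ∀ q ∈ A, Real.exp (L - 1) * (1 + (F q - (L - 1))) ≤ Real.exp (F q) := by
    intro q _
    have h1 := Real.add_one_le_exp (F q - (L - 1))
    have h2 : Real.exp (F q) = Real.exp (L - 1) * Real.exp (F q - (L - 1)) := by
      rw [← Real.exp_add]
      congr 1
      ring
    rw [h2]
    apply mul_le_mul_of_nonneg_left _ (Real.exp_pos _).le
    linarith
  have hs := Finset.sum_le_sum hconv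
  rw [← Finset.mul_sum, Finset.sum_add_distrib, Finset.sum_sub_distrib, Finset.sum_const,
    Finset.sum_const, nsmul_eq_mul, nsmul_eq_mul] at hs
  refine le_trans ?_ hs
  have h2 : (B.card : ℝ) * (B.card - 1) / 2 = A.card := by linarith
  rw [h2, mul_comm]
  apply mul_le_mul_of_nonneg_left _ (Real.exp_pos _).le
  linarith

/-- the number of close pairs -/
theorem core {g : ℕ} {B : Finset ℕ} (hB : DiffLE g B) (P : Finset ℕ) (hP : ∀ p ∈ P, p.Prime)
    (y κ : ℕ → ℝ) (hy : ∀ p ∈ P, 1 ≤ y p) (hy1 : ∀ p ∈ P, Real.log (y p) ≤ 1)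
    (hκ : ∀ p ∈ P, 0 < κ p ∧ ((B.image (· % p)).card : ℝ) ≤ κ p) (u : ℕ) (hu : 0 < u)
    (J : Finset ℕ) (hJ : ∀ j ∈ J, P.card + 1 ≤ (B.filter fun b => b / u = j).card) :
    ∑ j ∈ J, ((B.filter fun b => b / u = j).card : ℝ) *
        ((B.filter fun b => b / u = j).card - 1) / 2 ≤
      g * u * Real.exp (1 + ∑ p ∈ P, ((y p - 1) / p - Real.log (y p) / κ p)) := by
  classical
  set L := ∑ p ∈ P, Real.log (y p) / κ p with hL
  set bl : ℕ → Finset ℕ := fun j => B.filter fun b => b / u = j with hbl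
  have h1 : ∀ j ∈ J, ((bl j).card : ℝ) * ((bl j).card - 1) / 2 * Real.exp (L - 1) ≤
      ∑ q ∈ (bl j ×ˢ bl j).filter (fun q => q.1 < q.2), W P y (q.2 - q.1) := by
    intro j hj
    apply one_block (bl j) P y κ hy hy1 _ (hJ j hj)
    intro p hp
    obtain ⟨h2, h3⟩ := hκ p hp
    refine ⟨h2, le_trans ?_ h3⟩
    have h4 : ((bl j).image (· % p)).card ≤ (B.image (· % p)).card :=
      card_le_card (image_subset_image (filter_subset _ _))
    exact_mod_cast h4
  set A := (B ×ˢ B).filter fun q => q.1 < q.2 ∧ q.1 / u = q.2 / u with hA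
  have h2 : ∑ j ∈ J, ∑ q ∈ (bl j ×ˢ bl j).filter (fun q => q.1 < q.2), W P y (q.2 - q.1) ≤
      ∑ q ∈ A, W P y (q.2 - q.1) := by
    have hdis : ∀ j ∈ J, ∀ j' ∈ J, j ≠ j' →
        Disjoint ((bl j ×ˢ bl j).filter (fun q => q.1 < q.2))
          ((bl j' ×ˢ bl j').filter (fun q => q.1 < q.2)) := by
      intro j _ j' _ hjj
      rw [disjoint_left]
      intro q hq hq'
      rw [mem_filter, mem_product] at hq hq'
      simp only [hbl, mem_filter] at hq hq'
      apply hjj
      rw [← hq.1.1.2, ← hq'.1.1.2]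
    rw [← Finset.sum_biUnion (by
      intro j hj j' hj' hne
      exact hdis j hj j' hj' hne)]
    apply Finset.sum_le_sum_of_subset_of_nonneg
    · intro q hq
      rw [mem_biUnion] at hq
      obtain ⟨j, -, hq⟩ := hq
      rw [mem_filter, mem_product] at hq
      simp only [hbl, mem_filter] at hq
      rw [hA, mem_filter, mem_product]
      exact ⟨⟨hq.1.1.1, hq.1.2.1⟩, hq.2, by rw [hq.1.1.2, hq.1.2.2]⟩
    · intro q _ _
      exact W_nonneg hy _
  have hmaps : ∀ q ∈ A, q.2 - q.1 ∈ Icc 1 u := by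
    intro q hq
    rw [hA, mem_filter] at hq
    obtain ⟨-, hlt, hdiv⟩ := hq
    rw [mem_Icc]
    have h3 := Nat.div_add_mod q.1 u
    have h4 := Nat.div_add_mod q.2 u
    have h5 := Nat.mod_lt q.2 hu
    rw [hdiv] at h3
    omega
  have h3 : ∑ q ∈ A, W P y (q.2 - q.1) ≤ g * ∑ d ∈ Icc 1 u, W P y d := by
    rw [← Finset.sum_fiberwise_of_maps_to hmaps, Finset.mul_sum]
    apply Finset.sum_le_sum
    intro d hd
    rw [mem_Icc] at hd
    have h4 : ∑ q ∈ A.filter (fun q => q.2 - q.1 = d), W P y (q.2 - q.1) =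
        (A.filter (fun q => q.2 - q.1 = d)).card * W P y d := by
      rw [← nsmul_eq_mul, ← Finset.sum_const]
      apply Finset.sum_congr rfl
      intro q hq
      rw [mem_filter] at hq
      rw [hq.2]
    rw [h4]
    apply mul_le_mul_of_nonneg_right _ (W_nonneg hy _)
    have h5 : A.filter (fun q => q.2 - q.1 = d) ⊆ (B ×ˢ B).filter fun q => q.1 + d = q.2 := by
      intro q hq
      rw [mem_filter, hA, mem_filter] at hq
      rw [mem_filter]
      exact ⟨hq.1.1, by omega⟩
    exact_mod_cast (card_le_card h5).trans (hB d (by omega))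
  have h4 := sum_W_le y P hP hy u
  have h5 : ∏ p ∈ P, (1 + (y p - 1) / p) ≤ Real.exp (∑ p ∈ P, (y p - 1) / p) := by
    rw [Real.exp_sum]
    apply Finset.prod_le_prod
    · intro p hp
      have h6 := hy p hp
      have h7 : (0 : ℝ) < p := by exact_mod_cast (hP p hp).pos
      have h8 : 0 ≤ (y p - 1) / p := div_nonneg (by linarith) h7.le
      linarith
    · intro p _
      have := Real.add_one_le_exp ((y p - 1) / (p : ℝ))
      linarith
  have h6 : (∑ j ∈ J, ((bl j).card : ℝ) * ((bl j).card - 1) / 2) * Real.exp (L - 1) ≤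
      g * (u * Real.exp (∑ p ∈ P, (y p - 1) / p)) := by
    rw [Finset.sum_mul]
    refine (Finset.sum_le_sum h1).trans (h2.trans (h3.trans ?_))
    apply mul_le_mul_of_nonneg_left _ (by positivity)
    exact h4.trans (mul_le_mul_of_nonneg_left h5 (by positivity))
  have h7 : Real.exp (1 + ∑ p ∈ P, ((y p - 1) / p - Real.log (y p) / κ p)) * Real.exp (L - 1) =
      Real.exp (∑ p ∈ P, (y p - 1) / p) := by
    rw [← Real.exp_add, Finset.sum_sub_distrib]
    congr 1
    rw [← hL]
    ring
  have h8 : 0 < Real.exp (L - 1) := Real.exp_pos _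
  refine le_of_mul_le_mul_right ?_ h8
  rw [mul_assoc ((g : ℝ) * u), h7]
  linarith

end Pool.Agent.Work.MP_bbb683_h63
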