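import Pool.Agent.Work.MP_bbb683_h63.Scale
import Pool.Agent.Work.MP_b0c12c_nt_helper41.Mert

/-!
# MP_bbb683_co: the two bounds for sets which miss residue classes
-/

set_option autoImplicit false

namespace Pool.Agent.Work.MP_bbb683_h63

open Finset Filter Topology

theorem Q_ge {y : ℝ} (h1 : 1 ≤ y) (h2 : y ≤ 2) : (y - 1) ^ 2 / 3 ≤ y * Real.log y - y + 1 := by
  have h3 := Real.le_log_one_add_of_nonneg (x := y - 1) (by linarith)
  have h4 : 1 + (y - 1) = y := by ring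
  rw [h4] at h3
  have h5 : (y - 1) + 2 = y + 1 := by ring
  rw [h5, div_le_iff₀ (by linarith)] at h3
  -- `2 (y - 1) ≤ log y * (y + 1)`
  have h6 : 0 < y + 1 := by linarith
  have h7 : (y - 1) ^ 2 * (y + 1) ≤ 3 * (y - 1) ^ 2 := by nlinarith [sq_nonneg (y - 1)]
  have h8 : (y - 1) ^ 2 ≤ (y * Real.log y - y + 1) * (y + 1) := by nlinarith
  have h9 : (y - 1) ^ 2 * (y + 1) ≤ 3 * ((y * Real.log y - y + 1) * (y + 1)) := by linarith
  have h10 : (y - 1) ^ 2 ≤ 3 * (y * Real.log y - y + 1) := by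
    by_contra hcon
    push Not at hcon
    nlinarith
  linarith

theorem one_le_card_PP_or (g : ℕ) {m : ℕ} (hm : 1 ≤ m) (E : ℝ) (hE : 0 ≤ E) :
    √(4 * g * (1 + 2 * m) * E) ≤ √(12 * g * E) * √(m : ℝ) := by
  rw [← Real.sqrt_mul (by positivity)]
  apply Real.sqrt_le_sqrt
  have h1 : (1 : ℝ) ≤ m := by exact_mod_cast hm
  have h2 : (0 : ℝ) ≤ g * E := by positivity
  nlinarith

/-- Mertens -/
theorem mert : ∃ C : ℝ, ∀ m : ℕ, 1 ≤ m → Real.log m - C ≤ ∑ p ∈ PP m, 1 / (p : ℝ) := by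
  obtain ⟨C, hC, h⟩ := Pool.Agent.Work.MP_b0c12c_nt_helper41.mertens2
  refine ⟨C / Real.log 2, fun m hm => ?_⟩
  have h1 := h 2 (2 ^ m) le_rfl (by
    calc 2 = 2 ^ 1 := by norm_num
      _ ≤ 2 ^ m := Nat.pow_le_pow_right (by norm_num) hm)
  have h2 : ∑ p ∈ (Ioc 2 (2 ^ m)).filter Nat.Prime, 1 / (p : ℝ) ≤ ∑ p ∈ PP m, 1 / (p : ℝ) := by
    apply Finset.sum_le_sum_of_subset_of_nonneg
    · intro p hp
      rw [mem_filter, mem_Ioc] at hp
      exact mem_PP.2 ⟨hp.2, hp.1.2⟩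
    · intro p _ _
      positivity
  have h3 := (abs_le.1 h1).1
  have hl2 : 0 < Real.log 2 := Real.log_pos (by norm_num)
  have hm0 : (0 : ℝ) < m := by exact_mod_cast (by omega : 0 < m)
  have h4 : Real.log (Real.log ((2 ^ m : ℕ) : ℝ)) = Real.log m + Real.log (Real.log 2) := by
    push_cast
    rw [Real.log_pow, Real.log_mul hm0.ne' hl2.ne']
  rw [h4] at h3
  push_cast at h3
  linarith

/-- (B) -/
theorem bound_B (g : ℕ) (η C₀ : ℝ) (hη : 0 < η) (hη1 : η < 1 - Real.exp (-1)) (hC₀ : 0 ≤ C₀) :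
    ∃ C : ℝ, 0 ≤ C ∧ ∀ B : Finset ℕ, DiffLE g B →
      (∀ p : ℕ, p.Prime → ((B.image (· % p)).card : ℝ) ≤ (1 - η) * p + C₀) →
      ∀ m : ℕ, 1 ≤ m → T B m ≤ C * (m : ℝ) ^ ((1 + Real.log (1 - η)) / (2 * (1 - η))) := by
  obtain ⟨C₁, hC₁⟩ := mert
  have hη2 : 0 < 1 - η := by have := Real.exp_pos (-1); linarith
  set y : ℝ := 1 / (1 - η) with hy
  have hy1 : 1 < y := by
    rw [hy, one_lt_div hη2]
    linarith
  have hy0 : 0 < y := by linarith
  have hlogy : Real.log y = - Real.log (1 - η) := by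
    rw [hy, one_div, Real.log_inv]
  have hlog1 : Real.log y < 1 := by
    rw [hlogy]
    have h1 : Real.log (Real.exp (-1)) < Real.log (1 - η) :=
      Real.log_lt_log (Real.exp_pos _) (by linarith)
    rw [Real.log_exp] at h1
    linarith
  have hlog0 : 0 < Real.log y := Real.log_pos hy1
  set q : ℝ := y * Real.log y - y + 1 with hq
  have hq0 : 0 ≤ q := by
    have h1 := Real.one_sub_inv_le_log_of_pos hy0
    have h2 : y * (1 - y⁻¹) ≤ y * Real.log y := mul_le_mul_of_nonneg_left h1 hy0.le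
    rw [mul_sub, mul_inv_cancel₀ hy0.ne', mul_one] at h2
    rw [hq]
    linarith
  set θ : ℝ := (1 + Real.log (1 - η)) / (2 * (1 - η)) with hθ
  have hθq : θ = (1 - q) / 2 := by
    have h1 : Real.log (1 - η) = - Real.log y := by rw [hlogy]; ring
    have h2 : 1 - η = 1 / y := by rw [hy]; field_simp
    rw [hθ, h1, h2, hq]
    field_simp
    ring
  have hθ0 : 0 < θ := by
    rw [hθq, hq]
    have : y * Real.log y < y * 1 := mul_lt_mul_of_pos_left hlog1 hy0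
    linarith
  -- the sum of `1/p²`
  have hsum2 : Summable (fun n : ℕ => 1 / (n : ℝ) ^ 2) := Real.summable_one_div_nat_pow.2 (by norm_num)
  set Z : ℝ := ∑' n : ℕ, 1 / (n : ℝ) ^ 2 with hZ
  have hZ0 : ∀ s : Finset ℕ, ∑ p ∈ s, 1 / (p : ℝ) ^ 2 ≤ Z := fun s =>
    hsum2.sum_le_tsum s (fun n _ => by positivity)
  set κ : ℕ → ℝ := fun p => (1 - η) * p + C₀ with hκ
  have hterm : ∀ p : ℕ, p.Prime → (y - 1) / p - Real.log y / κ p ≤
      - q * (1 / p) + C₀ * y ^ 2 * (1 / (p : ℝ) ^ 2) := by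
    intro p hp
    have h0 : (0 : ℝ) < p := by exact_mod_cast hp.pos
    have hA : (0 : ℝ) < (1 - η) * p := by positivity
    have hk : 0 < κ p := by simp only [hκ]; linarith
    have h1 : y / p - C₀ * y ^ 2 / (p : ℝ) ^ 2 ≤ 1 / κ p := by
      have h2 : y / p = 1 / ((1 - η) * p) := by rw [hy]; field_simp
      have h3 : C₀ * y ^ 2 / (p : ℝ) ^ 2 = C₀ / ((1 - η) * p) ^ 2 := by
        rw [hy]; field_simp
      rw [h2, h3]
      set A := (1 - η) * (p : ℝ) with hAA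
      simp only [hκ]
      rw [← hAA, le_div_iff₀ (by linarith)]
      have h4 : (1 / A - C₀ / A ^ 2) * (A + C₀) = 1 - C₀ ^ 2 / A ^ 2 := by
        field_simp
        ring
      rw [h4]
      have h5 : 0 ≤ C₀ ^ 2 / A ^ 2 := by positivity
      linarith
    have h2 : Real.log y * (y / p - C₀ * y ^ 2 / (p : ℝ) ^ 2) ≤ Real.log y * (1 / κ p) :=
      mul_le_mul_of_nonneg_left h1 hlog0.le
    have h3 : Real.log y * (C₀ * y ^ 2 / (p : ℝ) ^ 2) ≤ 1 * (C₀ * y ^ 2 / (p : ℝ) ^ 2) :=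
      mul_le_mul_of_nonneg_right hlog1.le (by positivity)
    have h4 : Real.log y / κ p = Real.log y * (1 / κ p) := by ring
    rw [h4]
    have h5 : (y - 1) / p - Real.log y * (y / p) = - q * (1 / p) := by
      rw [hq]
      ring
    have h6 : C₀ * y ^ 2 * (1 / (p : ℝ) ^ 2) = 1 * (C₀ * y ^ 2 / (p : ℝ) ^ 2) := by ring
    rw [h6]
    linarith
  set D : ℝ := Real.exp (1 + q * C₁ + C₀ * y ^ 2 * Z) with hD
  have hD0 : 0 < D := Real.exp_pos _
  set ε : ℝ := 2 + √(12 * g * D) with hε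
  have hε0 : 0 ≤ ε := by positivity
  set c : ℝ := 1 / (1 - (3 / 4 : ℝ) ^ θ) with hc
  have hcpos : 0 < c := by
    have h1 : (3 / 4 : ℝ) ^ θ < 1 := Real.rpow_lt_one (by norm_num) (by norm_num) hθ0
    rw [hc]
    apply div_pos one_pos
    linarith
  refine ⟨2 ^ (6 * 8) + c * ε, by positivity, ?_⟩
  intro B hB hBκ m hm
  have hstep : ∀ m, 8 ≤ m → T B m ≤ T B ((2 * m + 2) / 3) + ε * (m : ℝ) ^ θ := by
    intro m hm8
    have hm1 : (1 : ℝ) ≤ m := by exact_mod_cast (by omega : 1 ≤ m)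
    have hm0 : (0 : ℝ) < m := by linarith
    have h3 := T_rec hB m (fun _ => y) κ (fun p hp => hy1.le) (fun p hp => hlog1.le)
      (fun p hp => ⟨by
        have h0 : (0 : ℝ) < p := by exact_mod_cast (mem_PP.1 hp).1.pos
        simp only [hκ]
        have : (0 : ℝ) < (1 - η) * p := by positivity
        linarith, hBκ p (mem_PP.1 hp).1⟩)
    set E := Real.exp (1 + ∑ p ∈ PP m, ((y - 1) / p - Real.log y / κ p)) with hE
    have h4 := one_le_card_PP_or g (show 1 ≤ m by omega) E (Real.exp_pos _).le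
    have h5 : E ≤ D * (m : ℝ) ^ (-q) := by
      have h6 : ∑ p ∈ PP m, ((y - 1) / p - Real.log y / κ p) ≤
          ∑ p ∈ PP m, (- q * (1 / p) + C₀ * y ^ 2 * (1 / (p : ℝ) ^ 2)) :=
        Finset.sum_le_sum fun p hp => hterm p (mem_PP.1 hp).1
      rw [Finset.sum_add_distrib, ← Finset.mul_sum, ← Finset.mul_sum] at h6
      have h7 := hC₁ m (by omega)
      have h8 := hZ0 (PP m)
      have h9 : q * (Real.log m - C₁) ≤ q * ∑ p ∈ PP m, 1 / (p : ℝ) :=
        mul_le_mul_of_nonneg_left h7 hq0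
      have h10 : C₀ * y ^ 2 * ∑ p ∈ PP m, 1 / (p : ℝ) ^ 2 ≤ C₀ * y ^ 2 * Z :=
        mul_le_mul_of_nonneg_left h8 (by positivity)
      rw [hE, hD, Real.rpow_def_of_pos hm0, ← Real.exp_add]
      apply Real.exp_le_exp.2
      nlinarith
    have h6 : √(12 * g * E) * √(m : ℝ) ≤ √(12 * g * D) * (m : ℝ) ^ θ := by
      have h7 : √(12 * g * E) ≤ √(12 * g * D) * √((m : ℝ) ^ (-q)) := by
        rw [← Real.sqrt_mul (by positivity)]
        apply Real.sqrt_le_sqrt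
        have : 12 * (g : ℝ) * E ≤ 12 * g * (D * (m : ℝ) ^ (-q)) :=
          mul_le_mul_of_nonneg_left h5 (by positivity)
        linarith
      have h8 : √((m : ℝ) ^ (-q)) * √(m : ℝ) = (m : ℝ) ^ θ := by
        rw [← Real.sqrt_mul (by positivity), Real.sqrt_eq_rpow]
        have h9 : (m : ℝ) ^ (-q) * (m : ℝ) = (m : ℝ) ^ (-q + 1) := by
          rw [Real.rpow_add hm0, Real.rpow_one]
        rw [h9, ← Real.rpow_mul hm0.le, hθq]
        congr 1
        ring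
      calc √(12 * g * E) * √(m : ℝ) ≤ √(12 * g * D) * √((m : ℝ) ^ (-q)) * √(m : ℝ) :=
            mul_le_mul_of_nonneg_right h7 (Real.sqrt_nonneg _)
        _ = √(12 * g * D) * (m : ℝ) ^ θ := by rw [mul_assoc, h8]
    have h7 : (1 : ℝ) ≤ (m : ℝ) ^ θ := Real.one_le_rpow hm1 hθ0.le
    rw [hε, add_mul]
    linarith
  have h1 := rec_bound (T B) θ ε (2 ^ (6 * 8)) 8 hθ0 hε0 le_rfl (by
      intro m hm
      refine (T_triv B m).trans ?_
      exact pow_le_pow_right₀ (by norm_num) (by omega)) hstep m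
  rw [← hc] at h1
  have h2 : (1 : ℝ) ≤ (m : ℝ) ^ θ := Real.one_le_rpow (by exact_mod_cast hm) hθ0.le
  have h3 : (2 : ℝ) ^ (6 * 8) * 1 ≤ 2 ^ (6 * 8) * (m : ℝ) ^ θ :=
    mul_le_mul_of_nonneg_left h2 (by positivity)
  rw [add_mul]
  linarith

/-- `λ log λ - λ + 1` -/
noncomputable def qf (y : ℝ) : ℝ := y * Real.log y - y + 1

/-- `min 2 (p / k)` -/
noncomputable def lam (k p : ℕ) : ℝ := min 2 ((p : ℝ) / k)

/-- the gain at `p` if at most `k` classes are met -/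
noncomputable def gain (k p : ℕ) : ℝ := qf (lam k p) / p

theorem lam_bd {k p : ℕ} (hk : 1 ≤ k) (hkp : k ≤ p) : 1 ≤ lam k p ∧ lam k p ≤ 2 := by
  unfold lam
  have hk0 : (0 : ℝ) < k := by exact_mod_cast hk
  refine ⟨le_min (by norm_num) ?_, min_le_left _ _⟩
  rw [one_le_div hk0]
  exact_mod_cast hkp

theorem qf_nonneg {y : ℝ} (h1 : 1 ≤ y) (h2 : y ≤ 2) : 0 ≤ qf y := by
  have h3 := Q_ge h1 h2
  unfold qf
  have : 0 ≤ (y - 1) ^ 2 / 3 := by positivity
  linarith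

theorem qf_two : qf 2 = 2 * Real.log 2 - 1 := by
  unfold qf
  ring

/-- `qf` is increasing on `[1, ∞)` -/
theorem qf_le {y : ℝ} (h1 : 1 ≤ y) (h2 : y ≤ 2) : qf y ≤ qf 2 := by
  -- `log 2 - log y ≥ (2 - y) / 2`, and `y (log 2 - log y) ≥ ...`
  have hy : 0 < y := by linarith
  have h3 : Real.log y - Real.log 2 ≤ y / 2 - 1 := by
    rw [← Real.log_div hy.ne' (by norm_num)]
    exact Real.log_le_sub_one_of_pos (by positivity)
  have h4 := Real.log_two_gt_d9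
  have h5 : y * Real.log y ≤ y * (Real.log 2 + (y / 2 - 1)) :=
    mul_le_mul_of_nonneg_left (by linarith) hy.le
  rw [qf_two]
  unfold qf
  have h6 : y * (Real.log 2 + (y / 2 - 1)) - y + 1 ≤ 2 * Real.log 2 - 1 := by
    nlinarith
  linarith

theorem gain_nonneg {k p : ℕ} (hk : 1 ≤ k) (hkp : k ≤ p) : 0 ≤ gain k p := by
  obtain ⟨h1, h2⟩ := lam_bd hk hkp
  exact div_nonneg (qf_nonneg h1 h2) (Nat.cast_nonneg p)

theorem gain_le {k p : ℕ} (hk : 1 ≤ k) (hkp : k ≤ p) : gain k p ≤ qf 2 * (1 / p) := by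
  obtain ⟨h1, h2⟩ := lam_bd hk hkp
  unfold gain
  rw [mul_one_div]
  exact div_le_div_of_nonneg_right (qf_le h1 h2) (Nat.cast_nonneg p)

/-- the function of the bound -/
noncomputable def Phi (κ : ℕ → ℕ) (m : ℕ) : ℝ :=
  √(m : ℝ) * Real.exp (-(1 / 2) * ∑ p ∈ PP m, gain (κ p) p)

/-- Mertens for `PP` -/
theorem mert2 : ∃ C : ℝ, 0 < C ∧ ∀ l m : ℕ, 1 ≤ l → l ≤ m →
    ∑ p ∈ PP m \ PP l, 1 / (p : ℝ) ≤ Real.log m - Real.log l + C / l := by
  obtain ⟨C, hC, h⟩ := Pool.Agent.Work.MP_b0c12c_nt_helper41.mertens2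
  have hl2 : 0 < Real.log 2 := Real.log_pos (by norm_num)
  refine ⟨C / Real.log 2, by positivity, fun l m hl hlm => ?_⟩
  have h1 := h (2 ^ l) (2 ^ m) (by
    calc 2 = 2 ^ 1 := by norm_num
      _ ≤ 2 ^ l := Nat.pow_le_pow_right (by norm_num) hl) (Nat.pow_le_pow_right (by norm_num) hlm)
  have h2 : PP m \ PP l = (Ioc (2 ^ l) (2 ^ m)).filter Nat.Prime := by
    ext p
    rw [Finset.mem_sdiff, mem_PP, mem_PP, mem_filter, mem_Ioc]
    constructor
    · rintro ⟨⟨h3, h4⟩, h5⟩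
      refine ⟨⟨?_, h4⟩, h3⟩
      by_contra hcon
      exact h5 ⟨h3, not_lt.1 hcon⟩
    · rintro ⟨⟨h3, h4⟩, h5⟩
      exact ⟨⟨h5, h4⟩, fun h6 => by omega⟩
  rw [h2]
  have h3 := (abs_le.1 h1).2
  have hll : ∀ n : ℕ, 1 ≤ n → Real.log (Real.log ((2 ^ n : ℕ) : ℝ)) =
      Real.log n + Real.log (Real.log 2) := by
    intro n hn
    have hn0 : (0 : ℝ) < n := by exact_mod_cast (by omega : 0 < n)
    push_cast
    rw [Real.log_pow, Real.log_mul hn0.ne' hl2.ne']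
  rw [hll l hl, hll m (hl.trans hlm)] at h3
  have h4 : C / Real.log ((2 ^ l : ℕ) : ℝ) = C / Real.log 2 / l := by
    push_cast
    rw [Real.log_pow]
    field_simp
  rw [h4] at h3
  linarith

theorem PP_mono {l m : ℕ} (h : l ≤ m) : PP l ⊆ PP m := by
  intro p hp
  rw [mem_PP] at hp ⊢
  exact ⟨hp.1, hp.2.trans (Nat.pow_le_pow_right (by norm_num) h)⟩

theorem Phi_low : ∃ c : ℝ, 0 < c ∧ ∀ κ : ℕ → ℕ, (∀ p : ℕ, p.Prime → 1 ≤ κ p ∧ κ p ≤ p) →
    ∀ m : ℕ, 1 ≤ m → c ≤ Phi κ m := by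
  obtain ⟨C, hC, h⟩ := mert2
  have hq2 : qf 2 < 1 := by
    rw [qf_two]
    have := Real.log_two_lt_d9
    linarith
  have hq0 : 0 ≤ qf 2 := qf_nonneg (by norm_num) le_rfl
  set D : ℝ := qf 2 * (∑ p ∈ PP 1, 1 / (p : ℝ)) + qf 2 * C with hD
  refine ⟨Real.exp (-(1 / 2) * D), Real.exp_pos _, ?_⟩
  intro κ hκ m hm
  have h1 : ∑ p ∈ PP m, gain (κ p) p ≤ qf 2 * Real.log m + D := by
    have h2 : ∑ p ∈ PP m, gain (κ p) p ≤ ∑ p ∈ PP m, qf 2 * (1 / (p : ℝ)) :=
      Finset.sum_le_sum fun p hp => by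
        obtain ⟨h3, h4⟩ := hκ p (mem_PP.1 hp).1
        exact gain_le h3 h4
    rw [← Finset.mul_sum] at h2
    have h3 := h 1 m le_rfl hm
    have h4 : ∑ p ∈ PP m, 1 / (p : ℝ) = ∑ p ∈ PP m \ PP 1, 1 / (p : ℝ) + ∑ p ∈ PP 1, 1 / (p : ℝ) :=
      (Finset.sum_sdiff (PP_mono hm)).symm
    rw [Nat.cast_one, Real.log_one, sub_zero, div_one] at h3
    have h5 : qf 2 * ∑ p ∈ PP m, 1 / (p : ℝ) ≤
        qf 2 * (Real.log m + C + ∑ p ∈ PP 1, 1 / (p : ℝ)) :=
      mul_le_mul_of_nonneg_left (by linarith) hq0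
    rw [hD]
    linarith
  have hm1 : (1 : ℝ) ≤ m := by exact_mod_cast hm
  have hlm : 0 ≤ Real.log m := Real.log_nonneg hm1
  unfold Phi
  have h2 : √(m : ℝ) = Real.exp (1 / 2 * Real.log m) := by
    rw [Real.sqrt_eq_rpow, Real.rpow_def_of_pos (by linarith), mul_comm]
  rw [h2, ← Real.exp_add]
  apply Real.exp_le_exp.2
  nlinarith

theorem Phi_step : ∃ m₁ : ℕ, ∀ κ : ℕ → ℕ, (∀ p : ℕ, p.Prime → 1 ≤ κ p ∧ κ p ≤ p) →
    ∀ m : ℕ, m₁ ≤ m → Phi κ ((2 * m + 2) / 3) ≤ 24 / 25 * Phi κ m := by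
  obtain ⟨C, hC, h⟩ := mert2
  have hq2 : qf 2 ≤ 2 / 5 := by
    rw [qf_two]
    have := Real.log_two_lt_d9
    linarith
  have hq0 : 0 ≤ qf 2 := qf_nonneg (by norm_num) le_rfl
  -- `(3/4)^(3/10) e^(1/50) < 24/25`
  have hnum : 3 / 10 * Real.log (3 / 4) + 1 / 50 ≤ Real.log (24 / 25) := by
    have h1 : Real.log (3 / 4) ≤ -(7 / 25) := by
      have h2 : Real.log (3 / 4) = - Real.log (4 / 3) := by
        rw [← Real.log_inv]
        norm_num
      have h3 := Real.le_log_one_add_of_nonneg (x := 1 / 3) (by norm_num)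
      have h4 : (1 : ℝ) + 1 / 3 = 4 / 3 := by norm_num
      rw [h4] at h3
      norm_num at h3
      linarith
    have h2 : -(1 / 24) ≤ Real.log (24 / 25) := by
      have h3 := Real.one_sub_inv_le_log_of_pos (show (0 : ℝ) < 24 / 25 by norm_num)
      norm_num at h3
      linarith
    linarith
  obtain ⟨M, hM⟩ := exists_nat_ge (50 * C)
  refine ⟨max (3 * M) 8, ?_⟩
  intro κ hκ m hm
  have hm8 : 8 ≤ m := (le_max_right _ _).trans hm
  have hmM : 3 * M ≤ m := (le_max_left _ _).trans hm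
  set l := (2 * m + 2) / 3 with hl
  have hl1 : 1 ≤ l := by omega
  have hlm : l ≤ m := by omega
  have hlM : M ≤ l := by omega
  have hl0 : (0 : ℝ) < l := by exact_mod_cast (by omega : 0 < l)
  have hm0 : (0 : ℝ) < m := by exact_mod_cast (by omega : 0 < m)
  have h3 : (l : ℝ) ≤ 3 / 4 * m := by
    have h4 : (((2 * m + 2) / 3 : ℕ) : ℝ) ≤ ((2 * m + 2 : ℕ) : ℝ) / (3 : ℕ) := Nat.cast_div_le
    have h5 : (8 : ℝ) ≤ m := by exact_mod_cast hm8
    rw [← hl] at h4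
    push_cast at h4
    linarith
  have hsum : ∑ p ∈ PP m, gain (κ p) p - ∑ p ∈ PP l, gain (κ p) p ≤
      2 / 5 * (Real.log m - Real.log l) + 1 / 50 := by
    have h1 : ∑ p ∈ PP m, gain (κ p) p - ∑ p ∈ PP l, gain (κ p) p =
        ∑ p ∈ PP m \ PP l, gain (κ p) p := by
      rw [← Finset.sum_sdiff (PP_mono hlm)]
      ring
    rw [h1]
    have h2 : ∑ p ∈ PP m \ PP l, gain (κ p) p ≤ ∑ p ∈ PP m \ PP l, 2 / 5 * (1 / (p : ℝ)) :=
      Finset.sum_le_sum fun p hp => by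
        obtain ⟨h3, h4⟩ := hκ p (mem_PP.1 (Finset.mem_sdiff.1 hp).1).1
        refine (gain_le h3 h4).trans ?_
        exact mul_le_mul_of_nonneg_right hq2 (by positivity)
    rw [← Finset.mul_sum] at h2
    have h4 := h l m hl1 hlm
    have h5 : C / l ≤ 1 / 50 := by
      rw [div_le_iff₀ hl0]
      have : (M : ℝ) ≤ l := by exact_mod_cast hlM
      linarith
    linarith
  unfold Phi
  have e1 : ∀ n : ℕ, (0 : ℝ) < n → √(n : ℝ) = Real.exp (1 / 2 * Real.log n) := by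
    intro n hn
    rw [Real.sqrt_eq_rpow, Real.rpow_def_of_pos hn, mul_comm]
  have e2 : (24 : ℝ) / 25 = Real.exp (Real.log (24 / 25)) := (Real.exp_log (by norm_num)).symm
  rw [e1 l hl0, e1 m hm0, e2, ← Real.exp_add, ← Real.exp_add, ← Real.exp_add]
  apply Real.exp_le_exp.2
  have h6 : Real.log l - Real.log m ≤ Real.log (3 / 4) := by
    rw [← Real.log_div hl0.ne' hm0.ne']
    apply Real.log_le_log (by positivity)
    rw [div_le_iff₀ hm0]
    exact h3
  linarith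

/-- (U) the unified bound -/
theorem bound_U (g : ℕ) : ∃ C : ℝ, 0 ≤ C ∧ ∀ κ : ℕ → ℕ,
    (∀ p : ℕ, p.Prime → 1 ≤ κ p ∧ κ p ≤ p) → ∀ B : Finset ℕ, DiffLE g B →
      (∀ p : ℕ, p.Prime → (B.image (· % p)).card ≤ κ p) → ∀ m : ℕ, 1 ≤ m →
        T B m ≤ C * Phi κ m := by
  obtain ⟨c, hc, hlow⟩ := Phi_low
  obtain ⟨m₁, hst⟩ := Phi_step
  set D : ℝ := √(12 * g * Real.exp 1) with hD
  have hD0 : 0 ≤ D := Real.sqrt_nonneg _
  set C : ℝ := 2 ^ (6 * (max m₁ 8)) / c + 25 * (2 / c + D) with hC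
  have hC0 : 0 ≤ C := by positivity
  refine ⟨C, hC0, ?_⟩
  intro κ hκ B hB hBκ
  have hPhi0 : ∀ m, 0 ≤ Phi κ m := fun m => by unfold Phi; positivity
  -- one step
  have hone : ∀ m, 1 ≤ m → T B m ≤ T B ((2 * m + 2) / 3) + (2 / c + D) * Phi κ m := by
    intro m hm
    have h1 := T_rec hB m (fun p => lam (κ p) p) (fun p => (p : ℝ) / lam (κ p) p)
      (fun p hp => by
        obtain ⟨h2, h3⟩ := hκ p (mem_PP.1 hp).1
        exact (lam_bd h2 h3).1)
      (fun p hp => by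
        obtain ⟨h2, h3⟩ := hκ p (mem_PP.1 hp).1
        obtain ⟨h4, h5⟩ := lam_bd h2 h3
        have h6 := Real.log_le_sub_one_of_pos (show 0 < lam (κ p) p by linarith)
        linarith)
      (fun p hp => by
        have hpp := (mem_PP.1 hp).1
        have hp0 : (0 : ℝ) < p := by exact_mod_cast hpp.pos
        obtain ⟨h2, h3⟩ := hκ p hpp
        obtain ⟨h4, h5⟩ := lam_bd h2 h3
        have hlp : 0 < lam (κ p) p := by linarith
        refine ⟨by positivity, ?_⟩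
        have h6 : ((B.image (· % p)).card : ℝ) ≤ κ p := by exact_mod_cast hBκ p hpp
        refine h6.trans ?_
        rw [le_div_iff₀ hlp]
        have h7 : lam (κ p) p ≤ (p : ℝ) / κ p := min_le_right _ _
        have hk0 : (0 : ℝ) < κ p := by exact_mod_cast h2
        have h8 := mul_le_mul_of_nonneg_left h7 hk0.le
        rwa [mul_div_cancel₀ _ hk0.ne'] at h8)
    have h2 : ∑ p ∈ PP m, ((lam (κ p) p - 1) / (p : ℝ) -
        Real.log (lam (κ p) p) / ((p : ℝ) / lam (κ p) p)) = - ∑ p ∈ PP m, gain (κ p) p := by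
      rw [← Finset.sum_neg_distrib]
      apply Finset.sum_congr rfl
      intro p _
      unfold gain qf
      rw [div_div_eq_mul_div]
      ring
    simp only [h2] at h1
    have h3 := one_le_card_PP_or g hm (Real.exp (1 + -∑ p ∈ PP m, gain (κ p) p))
      (Real.exp_pos _).le
    have h4 : √(12 * g * Real.exp (1 + -∑ p ∈ PP m, gain (κ p) p)) * √(m : ℝ) = D * Phi κ m := by
      rw [Real.exp_add, ← mul_assoc, Real.sqrt_mul (by positivity), ← hD]
      have h5 : √(Real.exp (-∑ p ∈ PP m, gain (κ p) p)) =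
          Real.exp (-(1 / 2) * ∑ p ∈ PP m, gain (κ p) p) := by
        rw [Real.sqrt_eq_rpow, ← Real.exp_mul]
        congr 1
        ring
      rw [h5]
      unfold Phi
      ring
    rw [h4] at h3
    have h5 : 2 ≤ 2 / c * Phi κ m := by
      have h6 := hlow κ hκ m hm
      rw [div_mul_eq_mul_div, le_div_iff₀ hc]
      linarith
    linarith
  intro m
  induction m using Nat.strong_induction_on with
  | _ m ih =>
    intro hm
    rcases Nat.lt_or_ge m (max m₁ 8) with h | h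
    · have h1 := T_triv B m
      have h2 : (2 : ℝ) ^ (6 * m) ≤ 2 ^ (6 * (max m₁ 8)) :=
        pow_le_pow_right₀ (by norm_num) (by omega)
      have h3 := hlow κ hκ m hm
      have h4 : (2 : ℝ) ^ (6 * (max m₁ 8)) ≤ 2 ^ (6 * (max m₁ 8)) / c * Phi κ m := by
        rw [div_mul_eq_mul_div, le_div_iff₀ hc]
        exact mul_le_mul_of_nonneg_left h3 (by positivity)
      have h5 : 0 ≤ 25 * (2 / c + D) * Phi κ m := mul_nonneg (by positivity) (hPhi0 m)
      rw [hC, add_mul]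
      linarith
    · have hm8 : 8 ≤ m := (le_max_right _ _).trans h
      have h1 := hone m hm
      have h2 := ih ((2 * m + 2) / 3) (by omega) (by omega)
      have h3 := hst κ hκ m ((le_max_left _ _).trans h)
      have h4 : C * Phi κ ((2 * m + 2) / 3) ≤ C * (24 / 25 * Phi κ m) :=
        mul_le_mul_of_nonneg_left h3 hC0
      have h5 : (2 / c + D) * Phi κ m ≤ 1 / 25 * C * Phi κ m := by
        apply mul_le_mul_of_nonneg_right _ (hPhi0 m)
        rw [hC]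
        have : (0 : ℝ) ≤ 2 ^ (6 * (max m₁ 8)) / c := by positivity
        linarith
      linarith

end Pool.Agent.Work.MP_bbb683_h63
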