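import Pool.Agent.Work.MP_bbb683_h63.Near

/-!
# MP_bbb683_co: powerful numbers
-/

set_option autoImplicit false

namespace Pool.Agent.Work.MP_bbb683_h63

open Finset Filter Topology

/-- a powerful number is `n² b³` -/
theorem powerful_form (a : ℕ) (h : ∀ p : ℕ, p.Prime → p ∣ a → p ^ 2 ∣ a) :
    ∃ n b : ℕ, 0 < b ∧ a = n ^ 2 * b ^ 3 := by
  revert h
  induction a using Nat.recOnPosPrimePosCoprime with
  | prime_pow p k hp hk =>
    intro h
    have h1 : p ^ 2 ∣ p ^ k := h p hp (dvd_pow_self p (by omega))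
    have h2 : 2 ≤ k := (Nat.pow_dvd_pow_iff_le_right hp.one_lt).1 h1
    rcases Nat.even_or_odd' k with ⟨j, hj | hj⟩
    · refine ⟨p ^ j, 1, one_pos, ?_⟩
      rw [hj, ← pow_mul]
      ring
    · refine ⟨p ^ (j - 1), p, hp.pos, ?_⟩
      rw [← pow_mul, ← pow_add]
      congr 1
      omega
  | zero =>
    intro _
    exact ⟨0, 1, one_pos, by norm_num⟩
  | one =>
    intro _
    exact ⟨1, 1, one_pos, by norm_num⟩
  | coprime a b ha hb hab iha ihb =>
    intro h
    have hA : ∀ p : ℕ, p.Prime → p ∣ a → p ^ 2 ∣ a := by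
      intro p hp hpa
      have h1 := h p hp (Dvd.dvd.mul_right hpa b)
      have h2 : Nat.Coprime p b := Nat.Coprime.coprime_dvd_left hpa hab
      have h3 : Nat.Coprime (p ^ 2) b := Nat.Coprime.pow_left 2 h2
      exact h3.dvd_of_dvd_mul_right h1
    have hB : ∀ p : ℕ, p.Prime → p ∣ b → p ^ 2 ∣ b := by
      intro p hp hpb
      have h1 := h p hp (Dvd.dvd.mul_left hpb a)
      have h2 : Nat.Coprime p a := Nat.Coprime.coprime_dvd_left hpb hab.symm
      have h3 : Nat.Coprime (p ^ 2) a := Nat.Coprime.pow_left 2 h2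
      exact h3.dvd_of_dvd_mul_left h1
    obtain ⟨n₁, b₁, h2, h3⟩ := iha hA
    obtain ⟨n₂, b₂, h5, h6⟩ := ihb hB
    refine ⟨n₁ * n₂, b₁ * b₂, Nat.mul_pos h2 h5, ?_⟩
    rw [h3, h6]
    ring

/-- squares have few residue classes -/
theorem squares_classes (B : Finset ℕ) (hB : ∀ b ∈ B, ∃ n : ℕ, b = n ^ 2) (p : ℕ) (hp : p.Prime) :
    ((B.image (· % p)).card : ℝ) ≤ (1 - 1 / 2) * p + 1 := by
  classical
  have h1 : B.image (· % p) ⊆ (range (p / 2 + 1)).image (fun c => c ^ 2 % p) := by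
    intro x hx
    rw [mem_image] at hx
    obtain ⟨b, hb, rfl⟩ := hx
    obtain ⟨n, rfl⟩ := hB b hb
    rw [mem_image]
    have hlt := Nat.mod_lt n hp.pos
    by_cases h : n % p ≤ p / 2
    · refine ⟨n % p, mem_range.2 (by omega), ?_⟩
      rw [← Nat.pow_mod]
    · refine ⟨p - n % p, mem_range.2 (by omega), ?_⟩
      have h2 : (p - n % p) ^ 2 % p = (n % p) ^ 2 % p := by
        have h3 : (p - n % p) ^ 2 ≡ (n % p) ^ 2 [MOD p] := by
          rw [Nat.modEq_iff_dvd]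
          have h4 : (((p - n % p : ℕ)) : ℤ) = (p : ℤ) - ((n % p : ℕ) : ℤ) := Nat.cast_sub hlt.le
          refine ⟨2 * ((n % p : ℕ) : ℤ) - p, ?_⟩
          rw [Nat.cast_pow, Nat.cast_pow, h4]
          ring
        exact h3
      rw [h2, ← Nat.pow_mod]
  have h2 := (card_le_card h1).trans card_image_le
  rw [card_range] at h2
  have h3 : ((p / 2 + 1 : ℕ) : ℝ) ≤ (p : ℝ) / 2 + 1 := by
    push_cast
    have : ((p / 2 : ℕ) : ℝ) ≤ (p : ℝ) / (2 : ℕ) := Nat.cast_div_le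
    push_cast at this
    linarith
  have h4 : ((B.image (· % p)).card : ℝ) ≤ ((p / 2 + 1 : ℕ) : ℝ) := by exact_mod_cast h2
  linarith

/-- the bound for powerful numbers -/
theorem bound_pow (g : ℕ) : ∃ C : ℝ, 0 ≤ C ∧ ∀ A : Finset ℕ, DiffLE g A →
    (∀ a ∈ A, ∀ p : ℕ, p.Prime → p ∣ a → p ^ 2 ∣ a) →
    ∀ m : ℕ, 1 ≤ m → T A m ≤ C * (m : ℝ) ^ (1 - Real.log 2) := by
  classical
  have he : (1 : ℝ) / 2 < 1 - Real.exp (-1) := by
    have h1 := Real.exp_one_gt_d9
    have h2 : Real.exp (-1) = (Real.exp 1)⁻¹ := Real.exp_neg 1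
    rw [h2]
    have h3 : (Real.exp 1)⁻¹ < 1 / 2 := by
      rw [inv_lt_comm₀ (Real.exp_pos 1) (by norm_num)]
      norm_num
      linarith
    linarith
  obtain ⟨C, hC0, hC⟩ := bound_B g (1 / 2) 1 (by norm_num) he (by norm_num)
  have hexp : (1 + Real.log (1 - 1 / 2)) / (2 * (1 - 1 / 2)) = 1 - Real.log 2 := by
    have h1 : Real.log (1 - 1 / 2) = - Real.log 2 := by
      rw [show (1 : ℝ) - 1 / 2 = 2⁻¹ by norm_num, Real.log_inv]
    rw [h1]
    norm_num
    ring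
  rw [hexp] at hC
  have hsum : Summable (fun b : ℕ => 1 / (b : ℝ) ^ (3 / 2 : ℝ)) :=
    Real.summable_one_div_nat_rpow.2 (by norm_num)
  set Z : ℝ := ∑' b : ℕ, 1 / (b : ℝ) ^ (3 / 2 : ℝ) with hZ
  have hZ0 : 0 ≤ Z := tsum_nonneg fun b => by positivity
  refine ⟨Z * C, by positivity, ?_⟩
  intro A hA hpow m hm
  have hform : ∀ a ∈ A, ∃ n b : ℕ, 0 < b ∧ a = n ^ 2 * b ^ 3 := fun a ha =>
    powerful_form a (hpow a ha)
  choose! n b hb hnb using hform
  set Am := A.filter (fun a => a < 2 ^ (6 * m)) with hAm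
  have hAmm : ∀ a ∈ Am, a ∈ A ∧ a < 2 ^ (6 * m) := fun a ha => by
    rw [hAm, mem_filter] at ha
    exact ha
  unfold T
  rw [← hAm, ← Finset.sum_fiberwise_of_maps_to (s := Am) (t := Am.image b) (g := b)
    (fun a ha => mem_image_of_mem b ha)]
  have hone : ∀ c ∈ Am.image b, ∑ a ∈ Am.filter (fun a => b a = c), 1 / √(a : ℝ) ≤
      1 / (c : ℝ) ^ (3 / 2 : ℝ) * (C * (m : ℝ) ^ (1 - Real.log 2)) := by
    intro c hc
    have hc0 : 0 < c := by
      rw [mem_image] at hc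
      obtain ⟨a, ha, rfl⟩ := hc
      exact hb a (hAmm a ha).1
    have hcr : (0 : ℝ) < c := by exact_mod_cast hc0
    have hc3 : 0 < c ^ 3 := pow_pos hc0 3
    set F := Am.filter (fun a => b a = c) with hF
    have hFm : ∀ a ∈ F, a ∈ A ∧ a < 2 ^ (6 * m) ∧ a = n a ^ 2 * c ^ 3 := by
      intro a ha
      rw [hF, mem_filter] at ha
      obtain ⟨h1, h2⟩ := hAmm a ha.1
      refine ⟨h1, h2, ?_⟩
      rw [← ha.2]
      exact hnb a h1
    set G := F.image (fun a => n a ^ 2) with hG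
    have hGm : ∀ x ∈ G, x * c ^ 3 ∈ A := by
      intro x hx
      rw [hG, mem_image] at hx
      obtain ⟨a, ha, rfl⟩ := hx
      rw [← (hFm a ha).2.2]
      exact (hFm a ha).1
    have hinj : Set.InjOn (fun a => n a ^ 2) F := by
      intro a ha a' ha' h
      simp only at h
      rw [(hFm a ha).2.2, (hFm a' ha').2.2, h]
    have hGS : DiffLE g G := by
      intro d hd
      have h1 := hA (d * c ^ 3) (Nat.mul_pos hd hc3)
      refine le_trans ?_ h1
      apply card_le_card_of_injOn (fun q : ℕ × ℕ => (q.1 * c ^ 3, q.2 * c ^ 3))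
      · intro q hq
        rw [mem_coe, mem_filter, mem_product] at hq
        rw [mem_coe, mem_filter, mem_product]
        refine ⟨⟨hGm _ hq.1.1, hGm _ hq.1.2⟩, ?_⟩
        simp only
        rw [← hq.2]
        ring
      · intro q _ q' _ h
        have h2 := Prod.mk.injEq _ _ _ _ ▸ h
        exact Prod.ext (Nat.eq_of_mul_eq_mul_right hc3 h2.1) (Nat.eq_of_mul_eq_mul_right hc3 h2.2)
    have h1 := hC G hGS (fun p hp => squares_classes G (by
      intro x hx
      rw [hG, mem_image] at hx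
      obtain ⟨a, -, rfl⟩ := hx
      exact ⟨n a, rfl⟩) p hp) m hm
    have h2 : ∑ a ∈ F, 1 / √(a : ℝ) = 1 / (c : ℝ) ^ (3 / 2 : ℝ) * ∑ x ∈ G, 1 / √(x : ℝ) := by
      rw [hG, Finset.sum_image hinj, Finset.mul_sum]
      apply Finset.sum_congr rfl
      intro a ha
      have h3 : (a : ℝ) = ((n a ^ 2 : ℕ) : ℝ) * (c : ℝ) ^ 3 := by
        have := (hFm a ha).2.2
        exact_mod_cast this
      have h4 : √((c : ℝ) ^ 3) = (c : ℝ) ^ (3 / 2 : ℝ) := by
        rw [Real.sqrt_eq_rpow, ← Real.rpow_natCast, ← Real.rpow_mul hcr.le]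
        norm_num
      rw [h3, Real.sqrt_mul (Nat.cast_nonneg _), h4, one_div_mul_one_div, mul_comm]
    have h3 : ∑ x ∈ G, 1 / √(x : ℝ) ≤ T G m := by
      unfold T
      apply Finset.sum_le_sum_of_subset_of_nonneg
      · intro x hx
        rw [mem_filter]
        refine ⟨hx, ?_⟩
        rw [hG, mem_image] at hx
        obtain ⟨a, ha, rfl⟩ := hx
        obtain ⟨h4, h5, h6⟩ := hFm a ha
        have h7 : n a ^ 2 * 1 ≤ n a ^ 2 * c ^ 3 := Nat.mul_le_mul_left _ hc3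
        omega
      · intro x _ _
        positivity
    rw [h2]
    apply mul_le_mul_of_nonneg_left (h3.trans h1) (by positivity)
  refine (Finset.sum_le_sum hone).trans ?_
  rw [← Finset.sum_mul]
  have h1 : ∑ c ∈ Am.image b, 1 / (c : ℝ) ^ (3 / 2 : ℝ) ≤ Z :=
    hsum.sum_le_tsum _ (fun c _ => by positivity)
  calc (∑ c ∈ Am.image b, 1 / (c : ℝ) ^ (3 / 2 : ℝ)) * (C * (m : ℝ) ^ (1 - Real.log 2))
      ≤ Z * (C * (m : ℝ) ^ (1 - Real.log 2)) := by
        apply mul_le_mul_of_nonneg_right h1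
        positivity
    _ = Z * C * (m : ℝ) ^ (1 - Real.log 2) := by ring

end Pool.Agent.Work.MP_bbb683_h63
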