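import Pool.Agent.Work.MP_bbb683_h63.Core

/-!
# MP_bbb683_co: the sum of `b ^ (-1/2)` over `[2^(4m), 2^(6m))` and the recursion
-/

set_option autoImplicit false

namespace Pool.Agent.Work.MP_bbb683_h63

open Finset

/-- the primes up to `2 ^ m` -/
def PP (m : ℕ) : Finset ℕ := (Icc 1 (2 ^ m)).filter Nat.Prime

theorem mem_PP {m p : ℕ} : p ∈ PP m ↔ p.Prime ∧ p ≤ 2 ^ m := by
  unfold PP
  rw [mem_filter, mem_Icc]
  constructor
  · rintro ⟨⟨-, h⟩, hp⟩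
    exact ⟨hp, h⟩
  · rintro ⟨hp, h⟩
    exact ⟨⟨hp.pos, h⟩, hp⟩

theorem card_PP (m : ℕ) : (PP m).card + 1 ≤ 2 ^ m := by
  have h1 : PP m ⊆ Icc 2 (2 ^ m) := by
    intro p hp
    rw [mem_PP] at hp
    rw [mem_Icc]
    exact ⟨hp.1.two_le, hp.2⟩
  have h2 := card_le_card h1
  rw [Nat.card_Icc] at h2
  have h3 : 1 ≤ 2 ^ m := Nat.one_le_two_pow
  omega

/-- the sum over the elements below `2 ^ (6 m)` -/
noncomputable def T (B : Finset ℕ) (m : ℕ) : ℝ :=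
  ∑ b ∈ B.filter (fun b => b < 2 ^ (6 * m)), 1 / √(b : ℝ)

theorem sum_inv_sqrt (n : ℕ) : ∑ j ∈ Ico 1 (n + 1), 1 / √(j : ℝ) ≤ 2 * √(n : ℝ) := by
  induction n with
  | zero => simp
  | succ n ih =>
    rw [Finset.sum_Ico_succ_top (by omega)]
    have h1 : 1 / √((n + 1 : ℕ) : ℝ) ≤ 2 * √((n + 1 : ℕ) : ℝ) - 2 * √(n : ℝ) := by
      have hpos : 0 < √((n + 1 : ℕ) : ℝ) := Real.sqrt_pos.2 (by exact_mod_cast Nat.succ_pos n)
      rw [div_le_iff₀ hpos]
      have h2 : √((n + 1 : ℕ) : ℝ) * √((n + 1 : ℕ) : ℝ) = (n : ℝ) + 1 := by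
        rw [Real.mul_self_sqrt (by positivity)]
        push_cast
        ring
      have h3 : √(n : ℝ) * √(n : ℝ) = (n : ℝ) := Real.mul_self_sqrt (by positivity)
      nlinarith [sq_nonneg (√((n + 1 : ℕ) : ℝ) - √(n : ℝ))]
    linarith

theorem sum_inv (n : ℕ) (hn : 1 ≤ n) : ∑ j ∈ Ico 1 n, 1 / (j : ℝ) ≤ 1 + Real.log n := by
  have h1 := harmonic_le_one_add_log n
  have h2 : ((harmonic n : ℚ) : ℝ) = ∑ j ∈ Ico 1 (n + 1), 1 / (j : ℝ) := by
    rw [Finset.sum_Ico_eq_sum_range]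
    unfold harmonic
    push_cast
    apply Finset.sum_congr rfl
    intro i _
    rw [one_div, add_comm]
  rw [h2, Finset.sum_Ico_succ_top (by omega)] at h1
  have h3 : (0 : ℝ) ≤ 1 / (n : ℝ) := by positivity
  linarith

theorem scale {g : ℕ} {B : Finset ℕ} (hB : DiffLE g B) (m : ℕ) (y κ : ℕ → ℝ)
    (hy : ∀ p ∈ PP m, 1 ≤ y p) (hy1 : ∀ p ∈ PP m, Real.log (y p) ≤ 1)
    (hκ : ∀ p ∈ PP m, 0 < κ p ∧ ((B.image (· % p)).card : ℝ) ≤ κ p) :
    ∑ b ∈ B.filter (fun b => 2 ^ (4 * m) ≤ b ∧ b < 2 ^ (6 * m)), 1 / √(b : ℝ) ≤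
      2 + √(4 * g * (1 + 2 * m) *
        Real.exp (1 + ∑ p ∈ PP m, ((y p - 1) / p - Real.log (y p) / κ p))) := by
  classical
  set E := Real.exp (1 + ∑ p ∈ PP m, ((y p - 1) / p - Real.log (y p) / κ p)) with hE
  have hE0 : 0 < E := Real.exp_pos _
  set u : ℕ := 2 ^ (4 * m) with hu
  set n : ℕ := 2 ^ (2 * m) with hn
  have hu0 : 0 < u := by positivity
  have hn0 : 1 ≤ n := Nat.one_le_two_pow
  have hun : 2 ^ (6 * m) = n * u := by
    rw [hn, hu, ← pow_add]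
    congr 1
    ring
  set c : ℕ → ℕ := fun j => (B.filter fun b => b / u = j).card with hc
  have hur : (0 : ℝ) < u := by exact_mod_cast hu0
  have hsu : √(u : ℝ) = (2 : ℝ) ^ (2 * m) := by
    rw [hu]
    push_cast
    rw [show 4 * m = 2 * (2 * m) by ring, pow_mul', Real.sqrt_sq (by positivity)]
  have hsn : √(n : ℝ) = (2 : ℝ) ^ m := by
    rw [hn]
    push_cast
    rw [pow_mul', Real.sqrt_sq (by positivity)]
  -- the sum over the blocks
  have hmaps : ∀ b ∈ B.filter (fun b => u ≤ b ∧ b < 2 ^ (6 * m)), b / u ∈ Ico 1 n := by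
    intro b hb
    rw [mem_filter, hun] at hb
    rw [mem_Ico]
    exact ⟨(Nat.one_le_div_iff hu0).2 hb.2.1, (Nat.div_lt_iff_lt_mul hu0).2 hb.2.2⟩
  have h1 : ∑ b ∈ B.filter (fun b => u ≤ b ∧ b < 2 ^ (6 * m)), 1 / √(b : ℝ) ≤
      ∑ j ∈ Ico 1 n, (c j : ℝ) * (1 / √(j : ℝ)) * (1 / √(u : ℝ)) := by
    rw [← Finset.sum_fiberwise_of_maps_to hmaps]
    apply Finset.sum_le_sum
    intro j hj
    rw [mem_Ico] at hj
    have hj0 : (0 : ℝ) < j := by exact_mod_cast (by omega : 0 < j)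
    have h2 : ∀ b ∈ (B.filter (fun b => u ≤ b ∧ b < 2 ^ (6 * m))).filter (fun b => b / u = j),
        1 / √(b : ℝ) ≤ 1 / √(j : ℝ) * (1 / √(u : ℝ)) := by
      intro b hb
      rw [mem_filter] at hb
      have h3 : j * u ≤ b := by
        rw [← hb.2]
        exact Nat.div_mul_le_self b u
      have h4 : (j : ℝ) * u ≤ b := by exact_mod_cast h3
      rw [one_div_mul_one_div, ← Real.sqrt_mul hj0.le]
      exact one_div_le_one_div_of_le (Real.sqrt_pos.2 (by positivity)) (Real.sqrt_le_sqrt h4)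
    calc ∑ b ∈ (B.filter (fun b => u ≤ b ∧ b < 2 ^ (6 * m))).filter (fun b => b / u = j),
          1 / √(b : ℝ)
        ≤ ∑ _b ∈ (B.filter (fun b => u ≤ b ∧ b < 2 ^ (6 * m))).filter (fun b => b / u = j),
          1 / √(j : ℝ) * (1 / √(u : ℝ)) := Finset.sum_le_sum h2
      _ = (((B.filter (fun b => u ≤ b ∧ b < 2 ^ (6 * m))).filter (fun b => b / u = j)).card : ℝ) *
          (1 / √(j : ℝ) * (1 / √(u : ℝ))) := by rw [Finset.sum_const, nsmul_eq_mul]
      _ ≤ (c j : ℝ) * (1 / √(j : ℝ) * (1 / √(u : ℝ))) := by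
          apply mul_le_mul_of_nonneg_right _ (by positivity)
          have : ((B.filter (fun b => u ≤ b ∧ b < 2 ^ (6 * m))).filter
              (fun b => b / u = j)).card ≤ c j := by
            apply card_le_card
            exact filter_subset_filter _ (filter_subset _ _)
          exact_mod_cast this
      _ = (c j : ℝ) * (1 / √(j : ℝ)) * (1 / √(u : ℝ)) := by ring
  refine h1.trans ?_
  -- small and large blocks
  set Sm := (Ico 1 n).filter (fun j => c j ≤ 2 ^ m) with hSm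
  set La := (Ico 1 n).filter (fun j => ¬ c j ≤ 2 ^ m) with hLa
  have h2 : ∑ j ∈ Ico 1 n, (c j : ℝ) * (1 / √(j : ℝ)) * (1 / √(u : ℝ)) =
      ∑ j ∈ Sm, (c j : ℝ) * (1 / √(j : ℝ)) * (1 / √(u : ℝ)) +
      ∑ j ∈ La, (c j : ℝ) * (1 / √(j : ℝ)) * (1 / √(u : ℝ)) :=
    (Finset.sum_filter_add_sum_filter_not _ _ _).symm
  rw [h2]
  have hsmall : ∑ j ∈ Sm, (c j : ℝ) * (1 / √(j : ℝ)) * (1 / √(u : ℝ)) ≤ 2 := by
    have h3 : ∑ j ∈ Sm, (c j : ℝ) * (1 / √(j : ℝ)) * (1 / √(u : ℝ)) ≤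
        ∑ j ∈ Sm, (2 : ℝ) ^ m * (1 / √(j : ℝ)) * (1 / √(u : ℝ)) := by
      apply Finset.sum_le_sum
      intro j hj
      rw [hSm, mem_filter] at hj
      have h4 : (c j : ℝ) ≤ 2 ^ m := by exact_mod_cast hj.2
      gcongr
    have h5 : ∑ j ∈ Sm, (2 : ℝ) ^ m * (1 / √(j : ℝ)) * (1 / √(u : ℝ)) ≤
        ∑ j ∈ Ico 1 n, (2 : ℝ) ^ m * (1 / √(j : ℝ)) * (1 / √(u : ℝ)) := by
      apply Finset.sum_le_sum_of_subset_of_nonneg (filter_subset _ _)
      intro j _ _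
      positivity
    have h6 : ∑ j ∈ Ico 1 n, 1 / √(j : ℝ) ≤ 2 * (2 : ℝ) ^ m := by
      obtain ⟨k, hk⟩ : ∃ k, n = k + 1 := ⟨n - 1, by omega⟩
      have h7 := sum_inv_sqrt k
      have h8 : √(k : ℝ) ≤ √(n : ℝ) := Real.sqrt_le_sqrt (by exact_mod_cast (by omega : k ≤ n))
      rw [← hk] at h7
      rw [hsn] at h8
      linarith
    refine h3.trans (h5.trans ?_)
    rw [← Finset.sum_mul, ← Finset.mul_sum, hsu]
    have h9 : (2 : ℝ) ^ m * (∑ j ∈ Ico 1 n, 1 / √(j : ℝ)) * (1 / 2 ^ (2 * m)) ≤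
        (2 : ℝ) ^ m * (2 * (2 : ℝ) ^ m) * (1 / 2 ^ (2 * m)) := by gcongr
    refine h9.trans (le_of_eq ?_)
    rw [two_mul m, pow_add]
    field_simp
  have hlarge : ∑ j ∈ La, (c j : ℝ) * (1 / √(j : ℝ)) * (1 / √(u : ℝ)) ≤
      √(4 * g * (1 + 2 * m) * E) := by
    rw [← Finset.sum_mul]
    have h3 := Real.sum_mul_le_sqrt_mul_sqrt La (fun j => (c j : ℝ)) (fun j => 1 / √(j : ℝ))
    have h4 : ∑ j ∈ La, (c j : ℝ) ^ 2 ≤ 4 * (g * u * E) := by
      have h5 := core hB (PP m) (fun p hp => (mem_PP.1 hp).1) y κ hy hy1 hκ u hu0 La (by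
        intro j hj
        rw [hLa, mem_filter] at hj
        have h6 := card_PP m
        have h7 : 2 ^ m < c j := by omega
        simp only [hc] at h7
        omega)
      rw [← hE] at h5
      have h8 : ∀ j ∈ La, (c j : ℝ) ^ 2 ≤ 4 * ((c j : ℝ) * (c j - 1) / 2) := by
        intro j hj
        rw [hLa, mem_filter] at hj
        have h6 : 1 ≤ 2 ^ m := Nat.one_le_two_pow
        have h7 : (2 : ℝ) ≤ c j := by exact_mod_cast (by omega : 2 ≤ c j)
        nlinarith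
      calc ∑ j ∈ La, (c j : ℝ) ^ 2 ≤ ∑ j ∈ La, 4 * ((c j : ℝ) * (c j - 1) / 2) :=
            Finset.sum_le_sum h8
        _ = 4 * ∑ j ∈ La, (c j : ℝ) * (c j - 1) / 2 := by rw [Finset.mul_sum]
        _ ≤ 4 * (g * u * E) := by linarith
    have h5 : ∑ j ∈ La, (1 / √(j : ℝ)) ^ 2 ≤ (1 : ℝ) + 2 * (m : ℝ) := by
      calc ∑ j ∈ La, (1 / √(j : ℝ)) ^ 2 ≤ ∑ j ∈ Ico 1 n, (1 / √(j : ℝ)) ^ 2 := by
            apply Finset.sum_le_sum_of_subset_of_nonneg (filter_subset _ _)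
            intro j _ _
            positivity
        _ = ∑ j ∈ Ico 1 n, 1 / (j : ℝ) := by
            apply Finset.sum_congr rfl
            intro j _
            rw [div_pow, one_pow, Real.sq_sqrt (Nat.cast_nonneg j)]
        _ ≤ 1 + Real.log n := sum_inv n hn0
        _ ≤ 1 + 2 * m := by
            rw [hn]
            push_cast
            rw [Real.log_pow]
            have := Real.log_two_lt_d9
            push_cast
            have hm0 : (0 : ℝ) ≤ m := Nat.cast_nonneg m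
            nlinarith
    have h6 : (∑ j ∈ La, (c j : ℝ) * (1 / √(j : ℝ))) * (1 / √(u : ℝ)) ≤
        √(4 * (g * u * E)) * √(1 + 2 * m) * (1 / √(u : ℝ)) := by
      apply mul_le_mul_of_nonneg_right _ (by positivity)
      refine h3.trans ?_
      exact mul_le_mul (Real.sqrt_le_sqrt h4) (Real.sqrt_le_sqrt h5) (Real.sqrt_nonneg _)
        (Real.sqrt_nonneg _)
    refine h6.trans (le_of_eq ?_)
    rw [← Real.sqrt_mul (by positivity), mul_one_div, ← Real.sqrt_div (by positivity)]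
    congr 1
    field_simp
  linarith

theorem T_nonneg (B : Finset ℕ) (m : ℕ) : 0 ≤ T B m := by
  unfold T
  exact Finset.sum_nonneg fun b _ => by positivity

theorem T_triv (B : Finset ℕ) (m : ℕ) : T B m ≤ 2 ^ (6 * m) := by
  unfold T
  have h1 : ∀ b ∈ B.filter (fun b => b < 2 ^ (6 * m)), 1 / √(b : ℝ) ≤ 1 := by
    intro b _
    rcases Nat.eq_zero_or_pos b with h | h
    · rw [h]
      simp
    · have h2 : (1 : ℝ) ≤ √(b : ℝ) := by
        rw [Real.one_le_sqrt]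
        exact_mod_cast h
      rw [div_le_one (by linarith)]
      exact h2
  refine (Finset.sum_le_sum h1).trans ?_
  rw [Finset.sum_const, nsmul_eq_mul, mul_one]
  have h2 : (B.filter (fun b => b < 2 ^ (6 * m))).card ≤ 2 ^ (6 * m) := by
    have h3 : B.filter (fun b => b < 2 ^ (6 * m)) ⊆ range (2 ^ (6 * m)) := by
      intro b hb
      rw [mem_filter] at hb
      exact mem_range.2 hb.2
    have h4 := card_le_card h3
    rwa [card_range] at h4
  exact_mod_cast h2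

theorem T_rec {g : ℕ} {B : Finset ℕ} (hB : DiffLE g B) (m : ℕ) (y κ : ℕ → ℝ)
    (hy : ∀ p ∈ PP m, 1 ≤ y p) (hy1 : ∀ p ∈ PP m, Real.log (y p) ≤ 1)
    (hκ : ∀ p ∈ PP m, 0 < κ p ∧ ((B.image (· % p)).card : ℝ) ≤ κ p) :
    T B m ≤ T B ((2 * m + 2) / 3) + (2 + √(4 * g * (1 + 2 * m) *
        Real.exp (1 + ∑ p ∈ PP m, ((y p - 1) / p - Real.log (y p) / κ p)))) := by
  classical
  have h1 := scale hB m y κ hy hy1 hκ
  have h2 : T B m ≤ T B ((2 * m + 2) / 3) +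
      ∑ b ∈ B.filter (fun b => 2 ^ (4 * m) ≤ b ∧ b < 2 ^ (6 * m)), 1 / √(b : ℝ) := by
    unfold T
    rw [← Finset.sum_filter_add_sum_filter_not (B.filter (fun b => b < 2 ^ (6 * m)))
      (fun b => b < 2 ^ (4 * m))]
    apply add_le_add
    · apply Finset.sum_le_sum_of_subset_of_nonneg
      · intro b hb
        rw [mem_filter, mem_filter] at hb
        rw [mem_filter]
        refine ⟨hb.1.1, lt_of_lt_of_le hb.2 (Nat.pow_le_pow_right (by norm_num) (by omega))⟩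
      · intro b _ _
        positivity
    · apply Finset.sum_le_sum_of_subset_of_nonneg
      · intro b hb
        rw [mem_filter, mem_filter] at hb
        rw [mem_filter]
        exact ⟨hb.1.1, by omega, hb.1.2⟩
      · intro b _ _
        positivity
  linarith

/-- the recursion -/
theorem rec_bound (f : ℕ → ℝ) (θ ε K : ℝ) (m₀ : ℕ) (hθ : 0 < θ) (hε : 0 ≤ ε)
    (hm₀ : 8 ≤ m₀) (hsm : ∀ m, m < m₀ → f m ≤ K)
    (hst : ∀ m, m₀ ≤ m → f m ≤ f ((2 * m + 2) / 3) + ε * (m : ℝ) ^ θ) (m : ℕ) :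
    f m ≤ K + 1 / (1 - (3 / 4 : ℝ) ^ θ) * ε * (m : ℝ) ^ θ := by
  have hc : (3 / 4 : ℝ) ^ θ < 1 := Real.rpow_lt_one (by norm_num) (by norm_num) hθ
  have hc0 : 0 < 1 - (3 / 4 : ℝ) ^ θ := by linarith
  induction m using Nat.strong_induction_on with
  | _ m ih =>
    rcases Nat.lt_or_ge m m₀ with h | h
    · have h1 := hsm m h
      have h2 : 0 ≤ 1 / (1 - (3 / 4 : ℝ) ^ θ) * ε * (m : ℝ) ^ θ := by positivity
      linarith
    · have h1 := hst m h
      have h2 := ih ((2 * m + 2) / 3) (by omega)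
      have h3 : (((2 * m + 2) / 3 : ℕ) : ℝ) ≤ 3 / 4 * m := by
        have h4 : (((2 * m + 2) / 3 : ℕ) : ℝ) ≤ ((2 * m + 2 : ℕ) : ℝ) / (3 : ℕ) := Nat.cast_div_le
        have h5 : (8 : ℝ) ≤ m := by exact_mod_cast (by omega : 8 ≤ m)
        push_cast at h4
        linarith
      have h4 : (((2 * m + 2) / 3 : ℕ) : ℝ) ^ θ ≤ (3 / 4) ^ θ * (m : ℝ) ^ θ := by
        rw [← Real.mul_rpow (by norm_num) (by positivity)]
        exact Real.rpow_le_rpow (by positivity) h3 hθ.le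
      have h5 : 1 / (1 - (3 / 4 : ℝ) ^ θ) * ε * (((2 * m + 2) / 3 : ℕ) : ℝ) ^ θ ≤
          1 / (1 - (3 / 4 : ℝ) ^ θ) * ε * ((3 / 4) ^ θ * (m : ℝ) ^ θ) := by
        apply mul_le_mul_of_nonneg_left h4 (by positivity)
      have h6 : 1 / (1 - (3 / 4 : ℝ) ^ θ) * ε * ((3 / 4) ^ θ * (m : ℝ) ^ θ) + ε * (m : ℝ) ^ θ =
          1 / (1 - (3 / 4 : ℝ) ^ θ) * ε * (m : ℝ) ^ θ := by
        field_simp
        ring
      linarith

end Pool.Agent.Work.MP_bbb683_h63
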